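import Pool.Agent.Lib.MP_d9c039_lc.V3.Inv

set_option autoImplicit false

/-!
# MP_d9c039_lc, third machine: the number of blocked cuts
-/

namespace Pool.Agent.D9c

open Pool.Agent.D9b (pendL drn plH pendL_range countP_range_le)

variable (P : Slots)

/-- `U` and `V` are small -/
theorem Slots.UV_le (h : List (Bool × ℕ)) (t M : ℕ) :
    (P.U h t M).card + (P.V h t M).card ≤ 2 * P.gc h t (M + 1) := by
  classical
  have key : ∀ S : Finset ℕ, (∀ x ∈ S, x < M ∧ P.Gt h t (x + 1)) → S.card ≤ P.gc h t (M + 1) := by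
    intro S hS
    unfold Slots.gc
    rw [← Finset.card_image_of_injective S (Nat.succ_injective)]
    apply Finset.card_le_card
    intro n hn
    obtain ⟨x, hx, rfl⟩ := Finset.mem_image.mp hn
    obtain ⟨h1, h2⟩ := hS x hx
    rw [Finset.mem_filter, Finset.mem_range]
    exact ⟨by simpa using h1, h2⟩
  have h1 : (P.U h t M).card ≤ P.gc h t (M + 1) := by
    apply key
    intro x hx
    unfold Slots.U at hx
    rw [Finset.mem_filter] at hx
    exact ⟨hx.2.1, hx.2.2.1⟩
  have h2 : (P.V h t M).card ≤ P.gc h t (M + 1) := by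
    apply key
    intro x hx
    unfold Slots.V at hx
    rw [Finset.mem_filter] at hx
    exact ⟨hx.2.1, hx.2.2.1⟩
  omega

/-- blocked cuts are close to marks -/
theorem Slots.gc_succ (h : List (Bool × ℕ)) (t N : ℕ) :
    P.gc h (t + 1) N ≤ P.sp t * P.D h t N := by
  classical
  unfold Slots.gc Slots.D
  have h1 : (Finset.range N).filter (fun n => P.Gt h (t + 1) n) ⊆
      ((mkH h).toFinset.filter (fun y => y < N ∧ y % P.sp t = P.rs t)).biUnion
        (fun y => Finset.Ioc y (y + P.sp t)) := by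
    intro n hn
    rw [Finset.mem_filter, Finset.mem_range] at hn
    obtain ⟨e, he, e1, e2, e3, e4⟩ := hn.2 t (Nat.lt_succ_self t)
    rw [Finset.mem_biUnion]
    refine ⟨e.2, ?_, ?_⟩
    · rw [Finset.mem_filter, List.mem_toFinset, mem_mkH, ← e1]
      exact ⟨he, by omega, e4⟩
    · rw [Finset.mem_Ioc]
      exact ⟨e2, e3⟩
  refine (Finset.card_le_card h1).trans (Finset.card_biUnion_le.trans ?_)
  simp only [Nat.card_Ioc, Nat.add_sub_cancel_left, Finset.sum_const, smul_eq_mul]
  rw [Nat.mul_comm]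

/-- the first free slot to the right of `N` -/
theorem Slots.free_slot (h : List (Bool × ℕ)) (t N : ℕ) :
    ∃ M, N ≤ M ∧ M % P.sp t = P.rs t ∧ (true, M) ∉ h ∧ M + 1 ≤ N + P.sp t + P.sp t * P.D h t M := by
  classical
  have hsp := P.sp_pos t
  obtain ⟨m0, hm1, hm2, hm3⟩ := P.win t (N + P.sp t) (Nat.le_add_left _ _)
  have hm4 : N ≤ m0 := by omega
  have hcls : ∀ j, (m0 + P.sp t * j) % P.sp t = P.rs t := by
    intro j
    rw [Nat.add_mul_mod_self_left, hm3]
  have hinj : Function.Injective (fun j => m0 + P.sp t * j) := by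
    intro i j hij
    simp only [Nat.add_left_cancel_iff] at hij
    exact Nat.eq_of_mul_eq_mul_left hsp hij
  have hex : ∃ j, (true, m0 + P.sp t * j) ∉ h := by
    by_contra hcon
    push Not at hcon
    have h3 : (Set.range (fun j => m0 + P.sp t * j)).Infinite :=
      Set.infinite_range_of_injective hinj
    apply h3
    apply ((mkH h).toFinset.finite_toSet).subset
    rintro e ⟨i, rfl⟩
    exact List.mem_toFinset.mpr (mem_mkH.mpr (hcon i))
  refine ⟨m0 + P.sp t * Nat.find hex, by omega, hcls _, Nat.find_spec hex, ?_⟩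
  have h1 : Nat.find hex ≤ P.D h t (m0 + P.sp t * Nat.find hex) := by
    have h2 : (Finset.range (Nat.find hex)).card ≤ P.D h t (m0 + P.sp t * Nat.find hex) := by
      unfold Slots.D
      rw [← Finset.card_image_of_injective (Finset.range (Nat.find hex)) hinj]
      apply Finset.card_le_card
      intro n hn
      obtain ⟨j, hj, rfl⟩ := Finset.mem_image.mp hn
      rw [Finset.mem_range] at hj
      have h3 := Nat.find_min hex hj
      rw [not_not] at h3
      rw [Finset.mem_filter, List.mem_toFinset, mem_mkH]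
      refine ⟨h3, ?_, hcls j⟩
      have h4 : P.sp t * j < P.sp t * Nat.find hex := Nat.mul_lt_mul_of_pos_left hj hsp
      exact Nat.add_lt_add_left h4 m0
    rwa [Finset.card_range] at h2
  have h4 := Nat.mul_le_mul_left (P.sp t) h1
  omega

theorem Slots.D_mono (h : List (Bool × ℕ)) (t : ℕ) {N M : ℕ} (hNM : N ≤ M) :
    P.D h t N ≤ P.D h t M := by
  classical
  unfold Slots.D
  apply Finset.card_le_card
  intro y hy
  rw [Finset.mem_filter] at hy ⊢
  exact ⟨hy.1, hy.2.1.trans_le hNM, hy.2.2⟩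

/-- the density of the blocked cuts -/
theorem Slots.gc_bound {s : ℕ} {h : List (Bool × ℕ)} (hi : P.Inv s h) (t : ℕ) :
    ∀ N, 2 ^ t * P.gc h t N ≤ N + ∑ i ∈ Finset.range t, P.sp i := by
  classical
  induction t with
  | zero =>
    intro N
    unfold Slots.gc
    have := Finset.card_filter_le (Finset.range N) (fun n => P.Gt h 0 n)
    rw [Finset.card_range] at this
    simpa using this
  | succ t ih =>
    intro N
    obtain ⟨M, hM1, hM2, hM3, hM4⟩ := P.free_slot h t N
    have h1 := hi.cn t M hM2 hM3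
    have h2 := P.UV_le h t M
    have h3 := ih (M + 1)
    have h4 := P.gc_succ h t N
    have h5 := Nat.mul_le_mul_left (P.sp t) (P.D_mono h t hM1)
    rw [Finset.sum_range_succ]
    set δ := P.sp t * P.D h t M with hδ
    have h6 : 6 * P.sp t * P.D h t M = 6 * δ := by rw [hδ]; ring
    have h7 : 3 * δ ≤ P.gc h t (M + 1) := by omega
    have h8 : 2 ^ t * (3 * δ) ≤ 2 ^ t * P.gc h t (M + 1) := Nat.mul_le_mul_left _ h7
    have h9 : δ ≤ 2 ^ t * δ := Nat.le_mul_of_pos_left _ (by positivity)
    have h10 : 2 ^ (t + 1) * P.gc h (t + 1) N ≤ 2 ^ (t + 1) * δ :=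
      Nat.mul_le_mul_left _ (h4.trans h5)
    have h11 : 2 ^ (t + 1) * δ = 2 * (2 ^ t * δ) := by ring
    have h12 : 2 ^ t * (3 * δ) = 3 * (2 ^ t * δ) := by ring
    omega

end Pool.Agent.D9c
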