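import Pool.Agent.Lib.MP_d9c039_lc.V3.Comp
import Pool.Agent.Lib.MP_d9c039_lc.V3.Count

set_option autoImplicit false

/-!
# MP_d9c039_lc, third machine: the enumeration of the marks
-/

namespace Pool.Agent.D9c

open Pool.Agent.D9 (cnt)
open Pool.Agent.D9b (pendL drn plH pendL_D pendL_A drn_D drn_A plH_cons_A plH_cons_D countP_range_le)

variable (P : Slots)

theorem plH_append (l h : List (Bool × ℕ)) : plH (l ++ h) = plH l ++ plH h := by
  unfold plH
  rw [List.filter_append, List.map_append]

theorem mkH_append (l h : List (Bool × ℕ)) : mkH (l ++ h) = mkH l ++ mkH h := by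
  unfold mkH
  rw [List.filter_append, List.map_append]

theorem cnt_append (l h : List ℕ) (n : ℕ) : cnt (l ++ h) n = cnt l n + cnt h n := by
  unfold Pool.Agent.D9.cnt
  rw [List.countP_append]

theorem cnt_cons (x : ℕ) (h : List ℕ) (n : ℕ) :
    cnt (x :: h) n = cnt h n + (if x < n then 1 else 0) := by
  unfold Pool.Agent.D9.cnt
  rw [List.countP_cons]
  simp

/-- no new mark `< n`: the new A-events `< n` are pending -/
theorem new_pend (l h : List (Bool × ℕ)) (n : ℕ)
    (hc : cnt (mkH (l ++ h)) n = cnt (mkH h) n) :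
    cnt (plH (l ++ h)) n ≤ cnt (plH h) n + (pendL 0 n (l ++ h)).length := by
  induction l with
  | nil => simp
  | cons e l ih =>
    obtain ⟨b, z⟩ := e
    cases b
    · rw [List.cons_append, mkH_cons_A] at hc
      have h1 := ih hc
      rw [List.cons_append, plH_cons_A, cnt_cons, pendL_A]
      by_cases hz : z < n
      · rw [if_pos hz, if_pos ⟨Nat.zero_le _, hz⟩, List.length_cons]
        omega
      · rw [if_neg hz, if_neg (fun h2 => hz h2.2)]
        omega
    · rw [List.cons_append, mkH_cons_D, cnt_cons, mkH_append, cnt_append] at hc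
      have hz : ¬ z < n := by
        intro hz
        rw [if_pos hz] at hc
        omega
      rw [if_neg hz] at hc
      have h1 := ih (by rw [mkH_append, cnt_append]; omega)
      rw [List.cons_append, plH_cons_D, pendL_D, if_neg hz]
      exact h1

/-- no new A-event `< n`: the new marks `< n` are counted by `drn` -/
theorem new_drn (l h : List (Bool × ℕ)) (n : ℕ)
    (hc : cnt (plH (l ++ h)) n = cnt (plH h) n) :
    cnt (mkH (l ++ h)) n ≤ cnt (mkH h) n + drn n (l ++ h) := by
  induction l with
  | nil => simp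
  | cons e l ih =>
    obtain ⟨b, z⟩ := e
    cases b
    · rw [List.cons_append, plH_cons_A, cnt_cons, plH_append, cnt_append] at hc
      have hz : ¬ z < n := by
        intro hz
        rw [if_pos hz] at hc
        omega
      rw [if_neg hz] at hc
      have h1 := ih (by rw [plH_append, cnt_append]; omega)
      rw [List.cons_append, mkH_cons_A, drn_A, if_neg hz]
      exact h1
    · rw [List.cons_append, plH_cons_D] at hc
      have h1 := ih hc
      rw [List.cons_append, mkH_cons_D, cnt_cons, drn_D]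
      by_cases hz : z < n
      · rw [if_pos hz, if_pos hz]
        omega
      · rw [if_neg hz, if_neg hz]
        exact h1

/-- an enumeration -/
structure Enu (a : ℕ → List ℕ) : Prop where
  nd : ∀ s, (a s).Nodup
  step : ∀ s, a (s + 1) = a s ∨ ∃ x, a (s + 1) = a s ++ [x]
  a0 : a 0 = []
  alt : ∀ s x, x ∈ a s → x < s

theorem plH_map_false (l : List ℕ) : plH (l.map (fun x => ((false, x) : Bool × ℕ))) = l := by
  induction l with
  | nil => rfl
  | cons x l ih => rw [List.map_cons, plH_cons_A, ih]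

/-- one more stage -/
theorem Slots.run_step (a : ℕ → List ℕ) (ha : Enu a) (s : ℕ)
    (ih : P.Rch s (P.run a s) ∧ plH (P.run a s) = (a s).reverse) :
    P.Rch (s + 1) (P.run a (s + 1)) ∧ plH (P.run a (s + 1)) = (a (s + 1)).reverse := by
  obtain ⟨ih1, ih2⟩ := ih
  set h := P.run a s with hh
  set h' := ((a (s + 1)).drop (a s).length).map (fun x => ((false, x) : Bool × ℕ)) ++ h with hh'
  have hrun : P.run a (s + 1) = P.stp (s + 1) h' := rfl
  have hadd : Add s h h' ∧ plH h' = (a (s + 1)).reverse := by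
    rcases ha.step s with h1 | ⟨x, h1⟩
    · rw [hh', h1, List.drop_length]
      exact ⟨Or.inl rfl, ih2⟩
    · rw [hh', h1, List.drop_left]
      refine ⟨Or.inr ⟨x, ?_, ?_, rfl⟩, ?_⟩
      · apply ha.alt (s + 1) x
        rw [h1]
        exact List.mem_append_right _ (List.mem_singleton.mpr rfl)
      · rw [ih2, List.mem_reverse]
        have h2 := ha.nd (s + 1)
        rw [h1, List.nodup_append] at h2
        intro h3
        exact h2.2.2 x h3 x (List.mem_singleton.mpr rfl) rfl
      · rw [List.map_singleton, List.singleton_append, plH_cons_A, ih2, List.reverse_append]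
        rfl
  obtain ⟨hadd1, hadd2⟩ := hadd
  have hnd : (plH h').Nodup := by
    rw [hadd2, List.nodup_reverse]
    exact ha.nd (s + 1)
  rw [hrun]
  rcases P.stp_cases (s + 1) h' with ⟨h1, h2⟩ | ⟨y, h1, h2⟩
  · rw [h1]
    refine ⟨Slots.Rch.none s h h' ih1 hadd1 ?_, hadd2⟩
    by_contra h3
    obtain ⟨y, hy⟩ := P.exists_leg hnd h3
    have hy' := hy
    obtain ⟨n0, h4, _, t, h5⟩ := hy'
    exact h2 y (h5.lt.trans_le h4) hy
  · rw [h2]
    exact ⟨Slots.Rch.mark s h h' y ih1 hadd1 h1, by rw [plH_cons_D]; exact hadd2⟩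

theorem Slots.run_all (a : ℕ → List ℕ) (ha : Enu a) (s : ℕ) :
    P.Rch s (P.run a s) ∧ plH (P.run a s) = (a s).reverse := by
  induction s with
  | zero =>
    refine ⟨Slots.Rch.zero, ?_⟩
    rw [ha.a0]
    rfl
  | succ s ih => exact P.run_step a ha s ih

theorem Slots.run_succ (a : ℕ → List ℕ) (s : ℕ) : ∃ l, P.run a (s + 1) = l ++ P.run a s := by
  have hrun : P.run a (s + 1) = P.stp (s + 1)
    (((a (s + 1)).drop (a s).length).map (fun x => (false, x)) ++ P.run a s) := rfl
  rw [hrun]
  rcases P.stp_cases (s + 1)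
    (((a (s + 1)).drop (a s).length).map (fun x => (false, x)) ++ P.run a s) with
    ⟨h1, _⟩ | ⟨y, _, h2⟩
  · rw [h1]
    exact ⟨_, rfl⟩
  · rw [h2, ← List.cons_append]
    exact ⟨_, rfl⟩

theorem Slots.run_le (a : ℕ → List ℕ) (s s' : ℕ) (hs : s ≤ s') :
    ∃ l, P.run a s' = l ++ P.run a s := by
  induction hs with
  | refl => exact ⟨[], rfl⟩
  | step _ ih =>
    rename_i m _
    obtain ⟨l, hl⟩ := ih
    obtain ⟨l', hl'⟩ := P.run_succ a m
    exact ⟨l' ++ l, by rw [hl', hl, List.append_assoc]⟩

theorem Slots.Rch_cls {s : ℕ} {h : List (Bool × ℕ)} (hr : P.Rch s h) :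
    ∀ y ∈ mkH h, ∃ t, y % P.sp t = P.rs t := by
  have hadd : ∀ (s : ℕ) (h h' : List (Bool × ℕ)), Add s h h' → mkH h' = mkH h := by
    rintro s h h' (rfl | ⟨x, _, _, rfl⟩)
    · rfl
    · rfl
  induction hr with
  | zero => simp [mkH]
  | none s h h' _ ha _ ih =>
    rw [hadd s h h' ha]
    exact ih
  | mark s h h' y _ ha hl ih =>
    intro z hz
    rw [mkH_cons_D, hadd s h h' ha] at hz
    rcases List.mem_cons.mp hz with h1 | h1
    · obtain ⟨n0, _, _, t, h2⟩ := hl
      rw [h1]
      exact ⟨t, h2.cls⟩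
    · exact ih z h1

theorem cnt_le (L : List ℕ) (h : L.Nodup) (n : ℕ) : cnt L n ≤ n := by
  have h1 := countP_range_le L h 0 n
  have h2 : L.countP (fun x => decide (0 ≤ x ∧ x < n)) = cnt L n := by
    unfold Pool.Agent.D9.cnt
    congr 1
    funext x
    simp
  omega

theorem cnt_reverse (L : List ℕ) (n : ℕ) : cnt L.reverse n = cnt L n := by
  unfold Pool.Agent.D9.cnt
  rw [List.countP_reverse]

/-- **The third machine.** -/
theorem Slots.enum (hsp : Primrec P.sp) (hrs : Primrec P.rs) (hK : Primrec P.K)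
    (a : ℕ → List ℕ) (hac : Computable a) (ha : Enu a) :
    ∃ (d : ℕ → List ℕ) (b : ℕ → ℕ), Computable d ∧ (∀ s, (d s).Nodup) ∧
      (∀ s, d s <:+ d (s + 1)) ∧ (∀ s, ∀ y ∈ d s, ∃ t, y % P.sp t = P.rs t) ∧
      (∀ n s s', s ≤ s' → cnt (a s) n = cnt (a s') n → cnt (d s') n ≤ cnt (d s) n + 1) ∧
      (∀ n s s', n ≤ s → s ≤ s' → cnt (d s) n = cnt (d s') n →
        cnt (a s') n ≤ cnt (a s) n + b n) ∧
      (∀ n, b n ≤ n) ∧
      ∀ t N, 2 ^ (t + 1) * ((Finset.range N).filter (fun n => P.K t ≤ b n)).card ≤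
        N + ∑ i ∈ Finset.range (t + 1), P.sp i := by
  classical
  have hinv : ∀ s, P.Inv s (P.run a s) ∧ ∀ n ≤ s, P.OK (P.run a s) n := fun s =>
    P.inv_all (P.run_all a ha s).1
  have hpl : ∀ s n, cnt (plH (P.run a s)) n = cnt (a s) n := by
    intro s n
    rw [(P.run_all a ha s).2, cnt_reverse]
  set d : ℕ → List ℕ := fun s => mkH (P.run a s) with hd
  have hdc : Computable d := by
    have h1 : Primrec (fun h : List (Bool × ℕ) => mkH h) := by
      unfold mkH
      refine Primrec.list_map ?_ (Primrec.snd.comp Primrec.snd)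
      have h2 : PrimrecPred (fun e : Bool × ℕ => e.1 = true) :=
        Primrec.eq.comp Primrec.fst (Primrec.const true)
      refine (Primrec.listFilter h2).of_eq ?_
      intro h
      congr 1
      funext e
      simp
    exact h1.to_comp.comp (P.run_computable hsp hrs hK a hac)
  have hbound : ∀ n s s', n ≤ s → s ≤ s' → cnt (d s) n = cnt (d s') n →
      cnt (a s') n ≤ cnt (a s) n + (pendL 0 n (P.run a s')).length := by
    intro n s s' _ hs' h1
    obtain ⟨l, hl⟩ := P.run_le a s s' hs'
    have h2 := new_pend l (P.run a s) n (by rw [← hl]; exact h1.symm)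
    rw [← hl, hpl, hpl] at h2
    exact h2
  have hex : ∀ n, ∃ B, ∀ s s', n ≤ s → s ≤ s' → cnt (d s) n = cnt (d s') n →
      cnt (a s') n ≤ cnt (a s) n + B := by
    intro n
    refine ⟨n, fun s s' _ _ _ => ?_⟩
    have := cnt_le (a s') (ha.nd s') n
    omega
  refine ⟨d, fun n => Nat.find (hex n), hdc, fun s => (hinv s).1.mnd, ?_, ?_, ?_, ?_, ?_, ?_⟩
  · intro s
    obtain ⟨l, hl⟩ := P.run_succ a s
    refine ⟨mkH l, ?_⟩
    rw [hd]
    simp only
    rw [hl, mkH_append]
  · intro s y hy
    exact P.Rch_cls (P.run_all a ha s).1 y hy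
  · intro n s s' hs' h1
    obtain ⟨l, hl⟩ := P.run_le a s s' hs'
    have h2 := new_drn l (P.run a s) n (by rw [← hl, hpl, hpl]; exact h1.symm)
    rw [← hl] at h2
    exact h2.trans (Nat.add_le_add_left ((hinv s').1.dr n) _)
  · intro n s s' h1 h2 h3
    exact Nat.find_spec (hex n) s s' h1 h2 h3
  · intro n
    apply Nat.find_min'
    intro s s' _ _ _
    have := cnt_le (a s') (ha.nd s') n
    omega
  · intro t N
    -- a cut with a large bound is blocked at some stage
    have h1 : ∀ n, P.K t ≤ Nat.find (hex n) → ∃ s, P.Gt (P.run a s) (t + 1) n := by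
      intro n hn
      by_contra hcon
      push Not at hcon
      have h2 : Nat.find (hex n) ≤ P.K t - 1 := by
        apply Nat.find_min'
        intro s s' hs hs' h3
        have h4 := hbound n s s' hs hs' h3
        have h5 := hcon s'
        unfold Slots.Gt at h5
        push Not at h5
        obtain ⟨i, hi, hi2⟩ := h5
        have h6 := (hinv s').2 n (hs.trans hs') i hi2
        have h7 := P.K_mono (Nat.lt_succ_iff.mp hi)
        omega
      have := P.K_pos t
      omega
    have h2 : ∃ S, ∀ n ∈ (Finset.range N).filter (fun n => P.K t ≤ Nat.find (hex n)),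
        P.Gt (P.run a S) (t + 1) n := by
      choose f hf using h1
      refine ⟨∑ n ∈ (Finset.range N).filter (fun n => P.K t ≤ Nat.find (hex n)),
        (if h : P.K t ≤ Nat.find (hex n) then f n h else 0), ?_⟩
      intro n hn
      have h3 := hn
      rw [Finset.mem_filter] at h3
      have h4 := Finset.single_le_sum (f := fun n =>
        (if h : P.K t ≤ Nat.find (hex n) then f n h else 0)) (fun _ _ => Nat.zero_le _) hn
      simp only [dif_pos h3.2] at h4
      obtain ⟨l, hl⟩ := P.run_le a _ _ h4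
      rw [hl]
      exact P.Gt_mono (fun e he => List.mem_append_right _ he) (hf n h3.2)
    obtain ⟨S, hS⟩ := h2
    refine le_trans ?_ (P.gc_bound (hinv S).1 (t + 1) N)
    apply Nat.mul_le_mul_left
    unfold Slots.gc
    apply Finset.card_le_card
    intro n hn
    rw [Finset.mem_filter]
    exact ⟨(Finset.mem_filter.mp hn).1, hS n hn⟩

end Pool.Agent.D9c
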