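import Pool.Agent.Lib.MP_d9c039_lc.V3.P8
import Pool.Agent.Lib.MP_d9c039_lc.V3.Enum

set_option autoImplicit false

/-!
# MP_d9c039_lc: the union of the boards of the second machine outside the class `y % 8 = 6`
-/

namespace Pool.Agent.D9b

open Pool.Agent.D9 (LS cnt resp tabS nplays tower)

private theorem resp_append (σ : List ℕ → Option ℕ) (q : List ℕ) (x : ℕ) :
    resp σ (q ++ [x]) = resp σ q ++ (σ (q ++ [x])).toList := by
  unfold resp
  rw [List.length_append, List.length_singleton, List.range_succ, List.filterMap_append]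
  congr 1
  · apply List.filterMap_congr
    intro i hi
    rw [List.mem_range] at hi
    rw [List.take_append_of_le_length (by omega)]
  · have h : (q ++ [x]).take (q.length + 1) = q ++ [x] := by
      apply List.take_of_length_le
      simp
    cases hσ : σ (q ++ [x]) with
    | none => simp [List.filterMap, h, hσ]
    | some y => simp [List.filterMap, h, hσ]

private theorem resp_mem {S : ℕ} {M : List ℕ} {C : List (ℕ × ℕ)}
    {σ : List ℕ → Option ℕ} (hG : LGood S M C σ) (q : List ℕ)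
    (hn : q.Nodup) (hq : ∀ x ∈ q, x < S) : ∀ y ∈ resp σ q, y ∈ M := by
  induction q using List.reverseRecOn with
  | nil => simp [resp]
  | append_singleton q x ih =>
    have hn' : q.Nodup := (List.nodup_append.1 hn).1
    have hq' : ∀ z ∈ q, z < S := fun z hz => hq z (List.mem_append_left _ hz)
    have h2 := ih hn' hq'
    rw [resp_append]
    cases hσ : σ (q ++ [x]) with
    | none => simpa using h2
    | some y =>
      obtain ⟨h3, _⟩ := (hG (q ++ [x]) hn hq).1 y hσ (by simp)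
      intro z hz
      rw [List.mem_append, Option.toList_some, List.mem_singleton] at hz
      rcases hz with hz | rfl
      · exact h2 z hz
      · exact h3

private theorem mem_mList8 {S S' y : ℕ} :
    y ∈ mList8 S S' ↔ y < S' ∧ ((y < S ∧ S ≤ 2 * y ∧ y % 8 = 2) ∨ (S ≤ y ∧ y % 4 = 0)) := by
  unfold mList8
  rw [List.mem_filter, List.mem_range, decide_eq_true_eq]

private theorem mem_mList {S S' y : ℕ} :
    y ∈ mList S S' ↔ y < S' ∧ ((y < S ∧ S ≤ 2 * y ∧ y % 4 = 2) ∨ (S ≤ y ∧ y % 4 = 0)) := by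
  unfold mList
  rw [List.mem_filter, List.mem_range, decide_eq_true_eq]

private theorem uc_filter (p : ℕ → Prop) [DecidablePred p] (l : List ℕ) :
    l.filterMap (fun x => if p x then some x else none) = l.filter (fun x => decide (p x)) := by
  induction l with
  | nil => rfl
  | cons x l ih =>
    by_cases h : p x
    · rw [List.filter_cons_of_pos (by simpa using h), List.filterMap_cons_some (by rw [if_pos h]),
        ih]
    · rw [List.filter_cons_of_neg (by simpa using h), List.filterMap_cons_none (by rw [if_neg h]),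
        ih]

private theorem uc_mList8 : Primrec₂ mList8 := by
  have hf : Primrec (fun q : ℕ × ℕ => List.range q.2) := Primrec.list_range.comp Primrec.snd
  have hg : Primrec₂ (fun (q : ℕ × ℕ) (y : ℕ) =>
      if (y < q.1 ∧ q.1 ≤ 2 * y ∧ y % 8 = 2) ∨ (q.1 ≤ y ∧ y % 4 = 0) then some y else none) := by
    have hS : Primrec (fun r : (ℕ × ℕ) × ℕ => r.1.1) := Primrec.fst.comp Primrec.fst
    have hy : Primrec (fun r : (ℕ × ℕ) × ℕ => r.2) := Primrec.snd
    have h2y : Primrec (fun r : (ℕ × ℕ) × ℕ => 2 * r.2) :=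
      Primrec.nat_mul.comp (Primrec.const 2) hy
    have hm : Primrec (fun r : (ℕ × ℕ) × ℕ => r.2 % 4) :=
      Primrec.nat_mod.comp hy (Primrec.const 4)
    have hm8 : Primrec (fun r : (ℕ × ℕ) × ℕ => r.2 % 8) :=
      Primrec.nat_mod.comp hy (Primrec.const 8)
    have c1 : PrimrecPred (fun r : (ℕ × ℕ) × ℕ => r.2 < r.1.1) := Primrec.nat_lt.comp hy hS
    have c2 : PrimrecPred (fun r : (ℕ × ℕ) × ℕ => r.1.1 ≤ 2 * r.2) := Primrec.nat_le.comp hS h2y
    have c3 : PrimrecPred (fun r : (ℕ × ℕ) × ℕ => r.2 % 8 = 2) :=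
      Primrec.eq.comp hm8 (Primrec.const 2)
    have c4 : PrimrecPred (fun r : (ℕ × ℕ) × ℕ => r.1.1 ≤ r.2) := Primrec.nat_le.comp hS hy
    have c5 : PrimrecPred (fun r : (ℕ × ℕ) × ℕ => r.2 % 4 = 0) :=
      Primrec.eq.comp hm (Primrec.const 0)
    have hc : PrimrecPred (fun r : (ℕ × ℕ) × ℕ =>
        (r.2 < r.1.1 ∧ r.1.1 ≤ 2 * r.2 ∧ r.2 % 8 = 2) ∨ (r.1.1 ≤ r.2 ∧ r.2 % 4 = 0)) :=
      (c1.and (c2.and c3)).or (c4.and c5)
    exact (Primrec.ite hc (Primrec.option_some.comp Primrec.snd) (Primrec.const none)).to₂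
  exact ((Primrec.listFilterMap hf hg).of_eq fun q => uc_filter
    (fun y => (y < q.1 ∧ q.1 ≤ 2 * y ∧ y % 8 = 2) ∨ (q.1 ≤ y ∧ y % 4 = 0)) _).to₂

/-- The second machine as an enumeration of marks. -/
theorem fam8 (h1 : S_Plays) (h2 : S_Search) (h5 : S_UM1) (h6 : S_UM2) (h7 : S_UM3) (h8 : S_UC)
    (Sz : ℕ → ℕ) (C : ℕ → List (ℕ × ℕ)) (hSz : Computable Sz) (hC : Computable C)
    (hz0 : ∀ L, L < Sz L) (hz2 : ∀ L, 2 * Sz L ≤ Sz (L + 1))
    (hgood : ∀ L, ∃ σ, LGood (Sz (L + 1)) (mList8 (Sz L) (Sz (L + 1))) (C L) σ)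
    (a : ℕ → List ℕ) (ha : Computable a) (hE : Pool.Agent.D9c.Enu a) :
    ∃ d : ℕ → List ℕ, Computable d ∧ (∀ s, (d s).Nodup) ∧ (∀ s x, x ∈ d s → x ∈ d (s + 1)) ∧
      (∀ s, ∀ y ∈ d s, y % 2 = 0 ∧ y % 8 ≠ 6) ∧
      (∀ L, ∀ e ∈ C L, Sz L ≤ e.1 → e.1 < Sz (L + 1) → ∀ s s', e.1 ≤ s → s ≤ s' →
        cnt (d s) e.1 = cnt (d s') e.1 → cnt (a s') e.1 ≤ cnt (a s) e.1 + e.2) ∧
      (∀ n s s', s ≤ s' → cnt (a s) n = cnt (a s') n → cnt (d s') n ≤ cnt (d s) n + 2) := by
  have hSz' : Computable (fun L => Sz (L + 1)) := hSz.comp (Primrec.succ.to_comp)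
  obtain ⟨T, hT, hTc⟩ := h2 (fun L => Sz (L + 1)) (fun L => mList8 (Sz L) (Sz (L + 1))) C hSz'
    (uc_mList8.to_comp.comp hSz (hSz.comp Computable.succ)) hC (fun L => by
      obtain ⟨σ, hσ⟩ := hgood L
      exact (h1 _ _ _).1 σ hσ)
  have hG8 : ∀ L, LGood (Sz (L + 1)) (mList8 (Sz L) (Sz (L + 1))) (C L) (tabS (T L)) :=
    fun L => (h1 _ _ _).2 _ (hTc L)
  have hF : Fam Sz C (fun L => tabS (T L)) a :=
    { sz0 := hz0
      sz2 := hz2
      good := by
        intro L p hp hp'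
        obtain ⟨g1, g2⟩ := hG8 L p hp hp'
        refine ⟨fun y hy hne => ?_, g2⟩
        obtain ⟨g3, g4⟩ := g1 y hy hne
        refine ⟨?_, g4⟩
        rw [mem_mList8] at g3
        rw [mem_mList]
        omega
      nd := hE.nd
      step := hE.step
      a0 := hE.a0
      alt := hE.alt }
  obtain ⟨u1, u2, u3⟩ := h5 _ _ _ _ hF
  have u4 := h6 _ _ _ _ hF
  have u5 := h7 _ _ _ _ hF
  have hdc := (h8 Sz hSz).1 T a hT ha
  refine ⟨fun t => allM Sz (fun L => tabS (T L)) a t, hdc, u1, u2, ?_, u4, u5⟩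
  intro s y hy
  unfold allM at hy
  rw [List.mem_flatMap] at hy
  obtain ⟨L, _, hy⟩ := hy
  have hfeed : (feed a (Sz (L + 1)) L s).Nodup ∧
      ∀ x ∈ feed a (Sz (L + 1)) L s, x < Sz (L + 1) := by
    unfold feed
    refine ⟨((hE.nd s).sublist (List.drop_sublist _ _)).filter _, fun x hx => ?_⟩
    rw [List.mem_filter] at hx
    exact of_decide_eq_true hx.2
  have h9 := resp_mem (hG8 L) _ hfeed.1 hfeed.2 y hy
  rw [mem_mList8] at h9
  omega

end Pool.Agent.D9b
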