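import Mathlib

set_option autoImplicit false

/-!
# MP_d9c039_lc, third machine: numerical lemmas
-/

namespace Pool.Agent.D9c

private theorem pow_big (t : ℕ) (ht : 17 ≤ t) : 16 * (t + 1) ^ 3 ≤ 2 ^ t := by
  induction t, ht using Nat.le_induction with
  | base => norm_num
  | succ t ht ih =>
    have h1 : 16 * (t + 1 + 1) ^ 3 ≤ 2 * (16 * (t + 1) ^ 3) := by
      obtain ⟨m, rfl⟩ : ∃ m, t = m + 17 := ⟨t - 17, by omega⟩
      have h2 : (m + 17 + 1 + 1) ^ 3 = m ^ 3 + 57 * m ^ 2 + 1083 * m + 6859 := by ring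
      have h3 : (m + 17 + 1) ^ 3 = m ^ 3 + 54 * m ^ 2 + 972 * m + 5832 := by ring
      rw [h2, h3]
      have h4 : 0 ≤ m ^ 3 := Nat.zero_le _
      have h5 : 0 ≤ m ^ 2 := Nat.zero_le _
      omega
    calc 16 * (t + 1 + 1) ^ 3 ≤ 2 * (16 * (t + 1) ^ 3) := h1
      _ ≤ 2 * 2 ^ t := Nat.mul_le_mul_left _ ih
      _ = 2 ^ (t + 1) := by rw [pow_succ]; ring

/-- the tail -/
theorem tail (t N g : ℕ) (hg : g ≤ N) (h : 2 ^ (t + 1) * g ≤ N + 16 * (t + 1) ^ 3) :
    2 ^ t * g ≤ 2 ^ 17 * N := by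
  rcases Nat.lt_or_ge t 17 with h1 | h1
  · exact Nat.mul_le_mul (Nat.pow_le_pow_right (by norm_num) h1.le) hg
  · rcases Nat.eq_zero_or_pos g with h2 | h2
    · rw [h2]
      simp
    · have h3 := pow_big t h1
      have h4 : 2 ^ t ≤ 2 ^ t * g := Nat.le_mul_of_pos_right _ h2
      have h5 : 2 ^ (t + 1) * g = 2 * (2 ^ t * g) := by rw [pow_succ]; ring
      omega

private theorem layer (c x T : ℕ) (hx : x ≤ c * (T + 1) ^ 3) :
    x ≤ c + ∑ t ∈ Finset.range T, (if c * (t + 1) ^ 3 < x then c * (3 * t ^ 2 + 9 * t + 7) else 0) := by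
  induction T with
  | zero => simpa using hx
  | succ T ih =>
    rw [Finset.sum_range_succ]
    rcases Nat.lt_or_ge (c * (T + 1) ^ 3) x with h1 | h1
    · have h2 : ∑ t ∈ Finset.range T,
          (if c * (t + 1) ^ 3 < x then c * (3 * t ^ 2 + 9 * t + 7) else 0) =
          ∑ t ∈ Finset.range T, c * (3 * t ^ 2 + 9 * t + 7) := by
        apply Finset.sum_congr rfl
        intro t ht
        rw [Finset.mem_range] at ht
        rw [if_pos]
        refine lt_of_le_of_lt ?_ h1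
        exact Nat.mul_le_mul_left _ (Nat.pow_le_pow_left (by omega) 3)
      have h3 : ∀ T, c + ∑ t ∈ Finset.range T, c * (3 * t ^ 2 + 9 * t + 7) = c * (T + 1) ^ 3 := by
        intro T
        induction T with
        | zero => simp
        | succ T ihT =>
          rw [Finset.sum_range_succ, ← add_assoc, ihT]
          ring
      rw [h2, if_pos h1, ← add_assoc, h3]
      refine hx.trans (le_of_eq ?_)
      ring
    · have := ih h1
      omega

/-- from the tail to the average -/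
theorem average (c : ℕ) (b : ℕ → ℕ) (hb : ∀ n, b n ≤ n)
    (ht : ∀ t N, 2 ^ t * ((Finset.range N).filter (fun n => c * (t + 1) ^ 3 < b n)).card ≤ c * N)
    (hc : 1 ≤ c) (N : ℕ) : ∑ n ∈ Finset.range N, b n ≤ (c + 50 * c ^ 2) * N := by
  have h1 : ∀ n ∈ Finset.range N, b n ≤ c + ∑ t ∈ Finset.range N,
      (if c * (t + 1) ^ 3 < b n then c * (3 * t ^ 2 + 9 * t + 7) else 0) := by
    intro n hn
    rw [Finset.mem_range] at hn
    apply layer
    have h2 := hb n
    have h3 : N + 1 ≤ (N + 1) ^ 3 := by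
      calc N + 1 = (N + 1) ^ 1 := (pow_one _).symm
        _ ≤ (N + 1) ^ 3 := Nat.pow_le_pow_right (by omega) (by norm_num)
    have h4 : (N + 1) ^ 3 ≤ c * (N + 1) ^ 3 := Nat.le_mul_of_pos_left _ hc
    omega
  have h2 := Finset.sum_le_sum h1
  rw [Finset.sum_add_distrib, Finset.sum_const, Finset.card_range, smul_eq_mul,
    Finset.sum_comm] at h2
  have h3 : ∀ t, ∑ n ∈ Finset.range N,
      (if c * (t + 1) ^ 3 < b n then c * (3 * t ^ 2 + 9 * t + 7) else 0) =
      ((Finset.range N).filter (fun n => c * (t + 1) ^ 3 < b n)).card *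
        (c * (3 * t ^ 2 + 9 * t + 7)) := by
    intro t
    rw [← Finset.sum_filter, Finset.sum_const, smul_eq_mul]
  simp only [h3] at h2
  have key : ∀ T : ℕ, ((∑ t ∈ Finset.range T,
      ((Finset.range N).filter (fun n => c * (t + 1) ^ 3 < b n)).card *
        (c * (3 * t ^ 2 + 9 * t + 7)) : ℕ) : ℚ) ≤
      (c : ℚ) ^ 2 * N * (50 - (6 * (T : ℚ) ^ 2 + 30 * T + 50) / 2 ^ T) := by
    intro T
    induction T with
    | zero => simp
    | succ T ih =>
      rw [Finset.sum_range_succ]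
      push_cast at ih ⊢
      have h4 := ht T N
      have h5 : (2 : ℚ) ^ T *
          (((Finset.range N).filter (fun n => c * (T + 1) ^ 3 < b n)).card : ℚ) ≤ c * N := by
        exact_mod_cast h4
      have h6 : (0 : ℚ) < 2 ^ T := by positivity
      set g : ℚ := (((Finset.range N).filter (fun n => c * (T + 1) ^ 3 < b n)).card : ℚ) with hg
      have h7 : g ≤ c * N / 2 ^ T := by
        rw [le_div_iff₀ h6]
        linarith
      have h8 : g * (c * (3 * (T : ℚ) ^ 2 + 9 * T + 7)) ≤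
          c * N / 2 ^ T * (c * (3 * (T : ℚ) ^ 2 + 9 * T + 7)) :=
        mul_le_mul_of_nonneg_right h7 (by positivity)
      have h9 : (c : ℚ) ^ 2 * N * (50 - (6 * ((T : ℚ) + 1) ^ 2 + 30 * (T + 1) + 50) / 2 ^ (T + 1)) =
          (c : ℚ) ^ 2 * N * (50 - (6 * (T : ℚ) ^ 2 + 30 * T + 50) / 2 ^ T) +
          c * N / 2 ^ T * (c * (3 * (T : ℚ) ^ 2 + 9 * T + 7)) := by
        rw [pow_succ]
        field_simp
        ring
      rw [h9]
      linarith
  have h4 := key N
  have h5 : ((∑ t ∈ Finset.range N,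
      ((Finset.range N).filter (fun n => c * (t + 1) ^ 3 < b n)).card *
        (c * (3 * t ^ 2 + 9 * t + 7)) : ℕ) : ℚ) ≤ ((50 * c ^ 2 * N : ℕ) : ℚ) := by
    refine h4.trans ?_
    push_cast
    have h6 : (0 : ℚ) ≤ (c : ℚ) ^ 2 * N := by positivity
    have h7 : (0 : ℚ) ≤ (6 * (N : ℚ) ^ 2 + 30 * N + 50) / 2 ^ N := by positivity
    nlinarith
  have h6 := Nat.cast_le.mp h5
  calc ∑ n ∈ Finset.range N, b n ≤ _ := h2
    _ ≤ N * c + 50 * c ^ 2 * N := Nat.add_le_add_left h6 _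
    _ = (c + 50 * c ^ 2) * N := by ring

end Pool.Agent.D9c
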