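import Pool.Agent.Lib.MP_d9c039_lc.V3.Defs

set_option autoImplicit false

/-!
# MP_d9c039_lc, third machine: the classes of slots, all inside `{y | y % 8 = 6}`
-/

namespace Pool.Agent.D9c

private theorem ct_pow : Primrec (fun n : ℕ => 2 ^ n) :=
  (Primrec.nat_rec₁ (f := fun _ y => 2 * y) 1
    (Primrec.nat_mul.comp (Primrec.const 2) Primrec.snd).to₂).of_eq fun n => by
      induction n with
      | zero => rfl
      | succ n ih =>
        change 2 * (Nat.rec 1 (fun _ y => 2 * y) n : ℕ) = 2 ^ (n + 1)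
        rw [ih, pow_succ']

private theorem ct_log : Primrec (Nat.log 2) := by
  have h : PrimrecRel (fun m i : ℕ => 2 ^ i ≤ m) :=
    Primrec.nat_le.comp (ct_pow.comp Primrec.snd) Primrec.fst
  refine (Primrec.nat_findGreatest Primrec.id h).of_eq fun m => ?_
  rw [id]
  rcases Nat.eq_zero_or_pos m with h0 | h0
  · rw [h0, Nat.log_zero_right, Nat.findGreatest_zero]
  · apply le_antisymm
    · have h1 : 2 ^ (Nat.findGreatest (fun i => 2 ^ i ≤ m) m) ≤ m :=
        Nat.findGreatest_spec (P := fun i => 2 ^ i ≤ m) (Nat.zero_le m) (by rw [pow_zero]; exact h0)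
      exact Nat.le_log_of_pow_le (by norm_num) h1
    · exact Nat.le_findGreatest (Nat.log_le_self 2 m) (Nat.pow_log_le_self 2 h0.ne')

/-- the power of two with `pw t ≤ t + 1 < 2 * pw t` -/
def pw (t : ℕ) : ℕ := 2 ^ Nat.log 2 (t + 1)

private theorem pw_le (t : ℕ) : pw t ≤ t + 1 := Nat.pow_log_le_self 2 (Nat.succ_ne_zero t)

private theorem pw_lt (t : ℕ) : t + 1 < 2 * pw t := by
  have := Nat.lt_pow_succ_log_self (b := 2) (by norm_num) (t + 1)
  unfold pw
  rw [pow_succ] at this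
  omega

private theorem pw_pos (t : ℕ) : 0 < pw t := Nat.two_pow_pos _

/-- the distance of the slots of the class `t` -/
def sp6 (t : ℕ) : ℕ := 16 * (pw t * pw t)

/-- the residue of the slots of the class `t` -/
def rs6 (t : ℕ) : ℕ := 8 * (pw t + 2 * pw t * (t + 1 - pw t)) + 6

private theorem rs6_lt (t : ℕ) : rs6 t < sp6 t := by
  have h1 := pw_le t
  have h2 := pw_lt t
  have h3 := pw_pos t
  unfold rs6 sp6
  obtain ⟨j, hj⟩ : ∃ j, t + 1 = pw t + j := ⟨t + 1 - pw t, by omega⟩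
  have h4 : t + 1 - pw t = j := by omega
  rw [h4]
  have h5 : j + 1 ≤ pw t := by omega
  have h6 : pw t * (j + 1) ≤ pw t * pw t := Nat.mul_le_mul_left _ h5
  nlinarith

private theorem mod16 (t y : ℕ) (h : y % sp6 t = rs6 t) : y % (16 * pw t) = 8 * pw t + 6 := by
  have h1 : 16 * pw t ∣ sp6 t := ⟨pw t, by unfold sp6; ring⟩
  rw [← Nat.mod_mod_of_dvd y h1, h]
  have h2 : rs6 t = 8 * pw t + 6 + 16 * pw t * (t + 1 - pw t) := by unfold rs6; ring
  have h3 := pw_pos t
  rw [h2, Nat.add_mul_mod_self_left, Nat.mod_eq_of_lt (by omega)]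

private theorem mod_ne (t t' y : ℕ) (h : y % sp6 t = rs6 t) (h' : y % sp6 t' = rs6 t')
    (hlt : Nat.log 2 (t + 1) < Nat.log 2 (t' + 1)) : False := by
  have h1 := mod16 t y h
  have h2 := mod16 t' y h'
  have h3 := pw_pos t
  obtain ⟨w, hw⟩ : ∃ w, pw t' = 2 * pw t * w := by
    refine ⟨2 ^ (Nat.log 2 (t' + 1) - Nat.log 2 (t + 1) - 1), ?_⟩
    unfold pw
    rw [← pow_succ', ← pow_add]
    congr 1
    omega
  have h4 : 16 * pw t ∣ 16 * pw t' := ⟨2 * w, by rw [hw]; ring⟩
  rw [← Nat.mod_mod_of_dvd y h4, h2] at h1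
  have h5 : 8 * pw t' + 6 = 6 + 16 * pw t * w := by rw [hw]; ring
  rw [h5, Nat.add_mul_mod_self_left, Nat.mod_eq_of_lt (by omega)] at h1
  omega

private theorem disj6 (t t' y : ℕ) (h : y % sp6 t = rs6 t) (h' : y % sp6 t' = rs6 t') :
    t = t' := by
  rcases Nat.lt_trichotomy (Nat.log 2 (t + 1)) (Nat.log 2 (t' + 1)) with h1 | h1 | h1
  · exact (mod_ne t t' y h h' h1).elim
  · have h2 : pw t = pw t' := by unfold pw; rw [h1]
    have h3 : rs6 t = rs6 t' := by
      rw [← h, ← h']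
      unfold sp6
      rw [h2]
    unfold rs6 at h3
    rw [h2] at h3
    have h4 : 2 * pw t' * (t + 1 - pw t') = 2 * pw t' * (t' + 1 - pw t') := by omega
    have h5 := Nat.eq_of_mul_eq_mul_left (by have := pw_pos t'; omega) h4
    have h6 := pw_le t
    have h7 := pw_le t'
    omega
  · exact (mod_ne t' t y h' h h1).elim

theorem sp6_le (t : ℕ) : sp6 t ≤ 16 * ((t + 1) * (t + 1)) :=
  Nat.mul_le_mul_left _ (Nat.mul_le_mul (pw_le t) (pw_le t))

/-- the classes of slots -/
def P6 : Slots where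
  sp := sp6
  rs := rs6
  K := fun t => 384 * (t + 1) ^ 3
  rs_lt := rs6_lt
  disj := disj6
  K0 := by
    have := sp6_le 0
    norm_num at this ⊢
    omega
  KS := by
    intro t
    have h1 := sp6_le (t + 1)
    have h2 : 384 * (t + 1 + 1) ^ 3 = 384 * (t + 1) ^ 3 + 384 * (3 * (t * t) + 9 * t + 7) := by ring
    rw [h2]
    have h3 : 24 * (16 * ((t + 1 + 1) * (t + 1 + 1))) = 384 * (t * t + 4 * t + 4) := by ring
    have h4 : 384 * (t * t + 4 * t + 4) ≤ 384 * (3 * (t * t) + 9 * t + 7) :=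
      Nat.mul_le_mul_left _ (by nlinarith)
    omega

theorem P6_mod8 (t y : ℕ) (h : y % P6.sp t = P6.rs t) : y % 8 = 6 := by
  have h1 : 8 ∣ P6.sp t := ⟨2 * (pw t * pw t), by change 16 * _ = _; ring⟩
  rw [← Nat.mod_mod_of_dvd y h1, h]
  change rs6 t % 8 = 6
  unfold rs6
  omega

private theorem prim_pw : Primrec pw := ct_pow.comp (ct_log.comp Primrec.succ)

theorem P6_sp : Primrec P6.sp :=
  Primrec.nat_mul.comp (Primrec.const 16) (Primrec.nat_mul.comp prim_pw prim_pw)

theorem P6_rs : Primrec P6.rs :=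
  Primrec.nat_add.comp (Primrec.nat_mul.comp (Primrec.const 8)
    (Primrec.nat_add.comp prim_pw (Primrec.nat_mul.comp
      (Primrec.nat_mul.comp (Primrec.const 2) prim_pw)
      (Primrec.nat_sub.comp Primrec.succ prim_pw)))) (Primrec.const 6)

theorem P6_K : Primrec P6.K := by
  have h1 : Primrec (fun t : ℕ => 384 * ((t + 1) * ((t + 1) * (t + 1)))) :=
    Primrec.nat_mul.comp (Primrec.const 384) (Primrec.nat_mul.comp Primrec.succ
      (Primrec.nat_mul.comp Primrec.succ Primrec.succ))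
  refine h1.of_eq ?_
  intro t
  change _ = 384 * (t + 1) ^ 3
  ring

theorem P6_sum (t : ℕ) : ∑ i ∈ Finset.range (t + 1), P6.sp i ≤ 16 * (t + 1) ^ 3 := by
  have h1 : ∀ i ∈ Finset.range (t + 1), P6.sp i ≤ 16 * ((t + 1) * (t + 1)) := by
    intro i hi
    rw [Finset.mem_range] at hi
    exact (sp6_le i).trans (Nat.mul_le_mul_left _ (Nat.mul_le_mul (by omega) (by omega)))
  refine (Finset.sum_le_card_nsmul _ _ _ h1).trans ?_
  rw [Finset.card_range, smul_eq_mul]
  apply le_of_eq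
  ring

end Pool.Agent.D9c
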