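import Pool.Agent.Lib.MP_d9c039_lc.V3.Fam8
import Pool.Agent.Lib.MP_d9c039_lc.V3.Par6
import Pool.Agent.Lib.MP_d9c039_lc.V3.Num

set_option autoImplicit false

/-!
# MP_d9c039_lc: the second and the third machine in parallel
-/

namespace Pool.Agent.D9c

open Pool.Agent.D9 (cnt resp tabS nplays tower)
open Pool.Agent.D9b (LGood mList8 ss C1 rr S_Plays S_Search S_Guess S_UM1 S_UM2 S_UM3 S_UC S_TT
  S_CompT S_Rk1 S_Board S_P8)

private lemma re_of_stages (d : ℕ → List ℕ) (hd : Computable d) :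
    REPred (fun n : ℕ => ∃ s, n ∈ d s) := by
  have h1 : Computable₂ (fun (n : ℕ) (s : ℕ) => decide (n ∈ d s)) := by
    have hp : PrimrecRel (fun (L : List ℕ) (n : ℕ) => ∃ a ∈ L, a = n) :=
      PrimrecRel.exists_mem_list (R := fun a b : ℕ => a = b) Primrec.eq
    have h2 : Computable (fun t : List ℕ × ℕ => decide (∃ a ∈ t.1, a = t.2)) :=
      (hp.decide).to_comp
    have h3 : Computable (fun t : ℕ × ℕ => decide (∃ a ∈ d t.2, a = t.1)) :=
      h2.comp (Computable.pair (hd.comp Computable.snd) Computable.fst)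
    exact h3.of_eq (fun t => by simp)
  have h2 : Partrec (fun n : ℕ => Nat.rfind (fun s => Part.some (decide (n ∈ d s)))) :=
    Partrec.rfind h1.partrec₂
  refine (Partrec.dom_re h2).of_eq ?_
  intro n
  refine Iff.trans (Nat.rfind_dom (p := fun s => Part.some (decide (n ∈ d s)))) ?_
  constructor
  · rintro ⟨s, hs, _⟩
    exact ⟨s, by simpa using hs⟩
  · rintro ⟨s, hs⟩
    exact ⟨s, by simpa using hs, fun _ => trivial⟩

private lemma lev (h : StrictMono ss) (n L0 : ℕ) (hn : ss L0 ≤ n) :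
    ∃ L, L0 ≤ L ∧ ss L ≤ n ∧ n < ss (L + 1) := by
  classical
  have hex : ∃ L, n < ss (L + 1) := by
    refine ⟨n, ?_⟩
    exact (Nat.lt_succ_self n).trans_le (h.id_le (n + 1))
  refine ⟨Nat.find hex, ?_, ?_, Nat.find_spec hex⟩
  · by_contra hlt
    push Not at hlt
    have h1 : n < ss (Nat.find hex + 1) := Nat.find_spec hex
    have h2 : ss (Nat.find hex + 1) ≤ ss L0 := h.monotone hlt
    omega
  · rcases Nat.eq_zero_or_pos (Nat.find hex) with h0 | h0
    · rw [h0]
      exact (h.monotone (Nat.zero_le L0)).trans hn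
    · have h1 := Nat.find_min hex (Nat.sub_lt h0 one_pos)
      have h2 : Nat.find hex - 1 + 1 = Nat.find hex := by omega
      rw [h2] at h1
      omega

private lemma ss_mono (h : S_TT) : StrictMono ss := by
  intro a b hab
  exact Nat.pow_lt_pow_right (by norm_num) (h.1 hab)

private theorem cnt_mono (L L' : List ℕ) (n : ℕ) (h : L.Nodup) (hh : ∀ x ∈ L, x ∈ L') :
    cnt L n ≤ cnt L' n := by
  unfold Pool.Agent.D9.cnt
  rw [List.countP_eq_length_filter, List.countP_eq_length_filter]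
  apply List.Subperm.length_le
  apply List.subperm_of_subset (h.filter _)
  intro x hx
  simp only [List.mem_filter, decide_eq_true_eq] at hx ⊢
  exact ⟨hh x hx.1, hx.2⟩

private theorem mem_le (d : ℕ → List ℕ) (h : ∀ s x, x ∈ d s → x ∈ d (s + 1)) (s s' : ℕ)
    (hs : s ≤ s') (x : ℕ) (hx : x ∈ d s) : x ∈ d s' := by
  induction hs with
  | refl => exact hx
  | step _ ih => exact h _ _ ih

/-- **The theorem.** -/
theorem fin (hB : S_Board) (h1 : S_Plays) (h2 : S_Search) (h3 : S_Guess) (hE : Pool.Agent.D9.EnumB)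
    (h5 : S_UM1) (h6 : S_UM2) (h7 : S_UM3) (h8 : S_UC) (hT : S_TT) (hP : S_P8) (hC : S_CompT)
    (hR : S_Rk1) :
    ∃ c : ℕ, ∀ A : Set ℕ, REPred (fun n : ℕ => n ∈ A) →
      ∃ D : Set ℕ, REPred (fun n : ℕ => n ∈ D) ∧ (∀ n ∈ D, Even n) ∧
        (∃ b : ℕ → ℕ,
          (∀ k n : ℕ, n ≤ tower k → b n ≤ c * (k + 1) ^ 2) ∧
          (∀ N : ℕ, ∑ n ∈ Finset.range N, b n ≤ c * N) ∧
          (∀ t N : ℕ, 2 ^ t * ((Finset.range N).filter (fun n => c * (t + 1) ^ 3 < b n)).card
            ≤ c * N) ∧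
          ∃ φ : List Bool × ℕ →. List Bool, Partrec φ ∧ ∀ n : ℕ, ∀ τ : List Bool,
            τ.length = n → (∀ i < n, (τ.getD i false = true ↔ i ∈ D)) →
            ∃ j ≤ b n, ∃ σ ∈ φ (τ, j), σ.length = n ∧
              ∀ i < n, (σ.getD i false = true ↔ i ∈ A)) ∧
        (∃ ψ : List Bool × ℕ →. List Bool, Partrec ψ ∧ ∀ n : ℕ, ∀ τ : List Bool,
          τ.length = n → (∀ i < n, (τ.getD i false = true ↔ i ∈ A)) →
          ∃ j ≤ 3, ∃ σ ∈ ψ (τ, j), σ.length = n ∧
            ∀ i < n, (σ.getD i false = true ↔ i ∈ D)) := by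
  classical
  have hm := ss_mono hT
  -- the constants
  set c0 : ℕ := 304704 + ss 5 with hc0
  have hc0' : 304704 ≤ c0 := Nat.le_add_right _ _
  refine ⟨c0 + 50 * c0 ^ 2, ?_⟩
  have hcc : c0 ≤ c0 + 50 * c0 ^ 2 := Nat.le_add_right _ _
  intro A hA
  obtain ⟨a, ha, hnd, hstep, ha0, halt, hmem⟩ := hE A hA
  have hEnu : Enu a := ⟨hnd, hstep, ha0, halt⟩
  have hmono : ∀ s x, x ∈ a s → x ∈ a (s + 1) := by
    intro s x hx
    rcases hstep s with h | ⟨y, h⟩
    · rw [h]; exact hx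
    · rw [h]; exact List.mem_append_left _ hx
  -- the two machines
  obtain ⟨d1, k1, k2, k3, k4, k5, k6⟩ := Pool.Agent.D9b.fam8 h1 h2 h5 h6 h7 h8 ss C1 hC.1 hC.2.2
    hT.2.2.2.2.2.1 hT.2.2.2.2.1 (fun L => by
      obtain ⟨P, hP1, hP2, hP3⟩ := hP L
      obtain ⟨σ, hσ⟩ := hB P (mList8 (ss L) (ss (L + 1))) (C1 L) hP2 hP3
      exact ⟨σ, hP1 ▸ hσ⟩) a ha hEnu
  obtain ⟨d2, b2, g1, g2, g3, g4, g5, g6, g7, g8⟩ := P6.enum P6_sp P6_rs P6_K a ha hEnu
  have g3' : ∀ s x, x ∈ d2 s → x ∈ d2 (s + 1) := fun s x hx => (g3 s).subset hx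
  have g4' : ∀ s, ∀ y ∈ d2 s, y % 8 = 6 := by
    intro s y hy
    obtain ⟨t, ht⟩ := g4 s y hy
    exact P6_mod8 t y ht
  set d : ℕ → List ℕ := fun s => d1 s ++ d2 s with hd
  have hdc : Computable d := Primrec.list_append.to_comp.comp k1 g1
  have hdn : ∀ s, (d s).Nodup := by
    intro s
    rw [hd]
    simp only
    rw [List.nodup_append]
    refine ⟨k2 s, g2 s, ?_⟩
    rintro x hx y hy rfl
    exact (k4 s x hx).2 (g4' s x hy)
  have hdm : ∀ s x, x ∈ d s → x ∈ d (s + 1) := by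
    intro s x hx
    rw [hd] at hx ⊢
    simp only [List.mem_append] at hx ⊢
    rcases hx with hx | hx
    · exact Or.inl (k3 s x hx)
    · exact Or.inr (g3' s x hx)
  have hsplit : ∀ n s s', s ≤ s' → cnt (d s) n = cnt (d s') n →
      cnt (d1 s) n = cnt (d1 s') n ∧ cnt (d2 s) n = cnt (d2 s') n := by
    intro n s s' hs h
    have e1 := cnt_mono (d1 s) (d1 s') n (k2 s) (fun x hx => mem_le d1 k3 s s' hs x hx)
    have e2 := cnt_mono (d2 s) (d2 s') n (g2 s) (fun x hx => mem_le d2 g3' s s' hs x hx)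
    rw [hd] at h
    simp only [cnt_append] at h
    omega
  have hex : ∀ n, ∃ B, ∀ s s', n ≤ s → s ≤ s' → cnt (d s) n = cnt (d s') n →
      cnt (a s') n ≤ cnt (a s) n + B := by
    intro n
    refine ⟨n, fun s s' _ _ _ => ?_⟩
    have := cnt_le (a s') (hnd s') n
    omega
  have hbn : ∀ n, Nat.find (hex n) ≤ n := by
    intro n
    apply Nat.find_min'
    intro s s' _ _ _
    have := cnt_le (a s') (hnd s') n
    omega
  have hb2 : ∀ n, Nat.find (hex n) ≤ b2 n := by
    intro n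
    apply Nat.find_min'
    intro s s' hs hs' h
    exact g6 n s s' hs hs' (hsplit n s s' hs' h).2
  have htail : ∀ t N : ℕ, 2 ^ t *
      ((Finset.range N).filter (fun n => c0 * (t + 1) ^ 3 < Nat.find (hex n))).card ≤ c0 * N := by
    intro t N
    have e1 := g8 t N
    have e2 := P6_sum t
    set G := (Finset.range N).filter (fun n => P6.K t ≤ b2 n) with hG
    have e3 : ((Finset.range N).filter (fun n => c0 * (t + 1) ^ 3 < Nat.find (hex n))).card
        ≤ G.card := by
      apply Finset.card_le_card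
      intro n hn
      rw [Finset.mem_filter] at hn
      rw [hG, Finset.mem_filter]
      refine ⟨hn.1, ?_⟩
      have e4 : P6.K t = 384 * (t + 1) ^ 3 := rfl
      have e5 : 384 * (t + 1) ^ 3 ≤ c0 * (t + 1) ^ 3 := Nat.mul_le_mul_right _ (by omega)
      have e6 := hb2 n
      have e7 := hn.2
      omega
    have e4 : G.card ≤ N := by
      have := Finset.card_filter_le (Finset.range N) (fun n => P6.K t ≤ b2 n)
      rwa [Finset.card_range] at this
    have e5 := tail t N G.card e4 (by omega)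
    calc 2 ^ t * ((Finset.range N).filter
          (fun n => c0 * (t + 1) ^ 3 < Nat.find (hex n))).card ≤ 2 ^ t * G.card :=
          Nat.mul_le_mul_left _ e3
      _ ≤ 2 ^ 17 * N := e5
      _ ≤ c0 * N := Nat.mul_le_mul_right _ (by norm_num; omega)
  refine ⟨{x | ∃ s, x ∈ d s}, re_of_stages d hdc, ?_, ⟨fun n => Nat.find (hex n), ?_, ?_, ?_, ?_⟩,
    ?_⟩
  · rintro n ⟨s, hs⟩
    rw [hd] at hs
    simp only [List.mem_append] at hs
    rw [Nat.even_iff]
    rcases hs with hs | hs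
    · exact (k4 s n hs).1
    · have := g4' s n hs
      omega
  · intro k n hn
    have hk : 1 ≤ (k + 1) ^ 2 := Nat.one_le_pow _ _ (by omega)
    have hgoal : Nat.find (hex n) ≤ c0 * (k + 1) ^ 2 := by
      rcases Nat.lt_or_ge n (ss 5) with hlt | hge
      · have h9 := hbn n
        nlinarith
      · obtain ⟨L, hL5, hL1, hL2⟩ := lev hm n 5 hge
        have h9 : (n, rr L) ∈ C1 L := by
          unfold C1
          rw [if_pos (hR.1 L hL5), List.mem_map]
          exact ⟨n, by simpa using ⟨hL2, hL1⟩, rfl⟩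
        have h10 : Nat.find (hex n) ≤ rr L := by
          apply Nat.find_min'
          intro s s' hs hs' h
          exact k5 L _ h9 hL1 hL2 s s' hs hs' (hsplit n s s' hs' h).1
        have h11 := hR.2 L k n hL1 hn
        nlinarith
    exact hgoal.trans (Nat.mul_le_mul_right _ hcc)
  · intro N
    exact average c0 _ hbn htail (by omega) N
  · intro t N
    refine le_trans ?_ ((htail t N).trans (Nat.mul_le_mul_right _ hcc))
    apply Nat.mul_le_mul_left
    apply Finset.card_le_card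
    intro n hn
    rw [Finset.mem_filter] at hn ⊢
    exact ⟨hn.1, lt_of_le_of_lt (Nat.mul_le_mul_right _ hcc) hn.2⟩
  · obtain ⟨φ, hφ, hφ'⟩ := h3 a d A {x | ∃ s, x ∈ d s} (fun n => Nat.find (hex n)) ha hdc hnd hdn
      hmono hdm hmem (fun x => Iff.rfl)
      (fun n s s' hs hs' h => Nat.find_spec (hex n) s s' hs hs' h)
    exact ⟨φ, hφ, hφ'⟩
  · obtain ⟨φ, hφ, hφ'⟩ := h3 d a {x | ∃ s, x ∈ d s} A (fun _ => 3) hdc ha hdn hnd hdm
      hmono (fun x => Iff.rfl) hmem
      (fun n s s' _ hs' h => by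
        have e1 := k6 n s s' hs' h
        have e2 := g5 n s s' hs' h
        rw [hd]
        simp only [cnt_append]
        omega)
    exact ⟨φ, hφ, hφ'⟩

end Pool.Agent.D9c
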