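import Pool.Agent.Lib.MP_d9c039_lc.V3.Exist

set_option autoImplicit false

/-!
# MP_d9c039_lc, third machine: the machine is computable
-/

namespace Pool.Agent.D9c

open Pool.Agent.D9b (pendL drn plH pendL_sublist)

open Primrec

variable {α β : Type*} [Primcodable α] [Primcodable β]

private theorem imp {p q : α → Prop} (hp : PrimrecPred p) (hq : PrimrecPred q) :
    PrimrecPred fun a => p a → q a :=
  (hp.not.or hq).of_eq fun _ => imp_iff_not_or.symm

private theorem forall_mem {f : α → List β} {p : α → β → Prop} (hf : Primrec f) (hp : PrimrecRel p) :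
    PrimrecPred fun a => ∀ b ∈ f a, p a b :=
  (hp.swap.forall_mem_list).comp hf Primrec.id

private theorem exists_mem {f : α → List β} {p : α → β → Prop} (hf : Primrec f) (hp : PrimrecRel p) :
    PrimrecPred fun a => ∃ b ∈ f a, p a b :=
  (hp.swap.exists_mem_list).comp hf Primrec.id

private theorem forall_lt {f : α → ℕ} {p : α → ℕ → Prop} (hf : Primrec f) (hp : PrimrecRel p) :
    PrimrecPred fun a => ∀ n < f a, p a n :=
  (forall_mem (Primrec.list_range.comp hf) hp).of_eq fun a => by simp only [List.mem_range]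

private theorem exists_lt {f : α → ℕ} {p : α → ℕ → Prop} (hf : Primrec f) (hp : PrimrecRel p) :
    PrimrecPred fun a => ∃ n < f a, p a n :=
  (exists_mem (Primrec.list_range.comp hf) hp).of_eq fun a => by simp only [List.mem_range]

private theorem pFilter {f : α → List β} {p : α → β → Prop} [∀ a, DecidablePred (p a)]
    (hf : Primrec f) (hp : PrimrecRel p) :
    Primrec fun a => (f a).filter (fun b => decide (p a b)) := by
  classical
  have h1 : PrimrecRel (fun (b : β) (a : α) => p a b) := hp.swap
  exact (h1.listFilter).comp hf Primrec.id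

private theorem mem_rel : PrimrecRel fun (x : α) (L : List α) => x ∈ L := by
  have h1 : PrimrecRel fun (L : List α) (x : α) => ∃ a ∈ L, a = x :=
    PrimrecRel.exists_mem_list (R := fun a x => a = x) Primrec.eq
  have h2 : PrimrecRel fun (L : List α) (x : α) => x ∈ L :=
    h1.of_eq fun L x => by simp
  exact h2.swap

private theorem pPend {h : α → List (Bool × ℕ)} {n : α → ℕ} (hh : Primrec h) (hn : Primrec n) :
    Primrec fun a => pendL 0 (n a) (h a) := by
  have h1 : Primrec₂ fun (a : α) (q : (Bool × ℕ) × List ℕ) =>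
      (if q.1.2 < n a then (if q.1.1 = true then [] else q.1.2 :: q.2) else q.2 : List ℕ) := by
    have e1 : Primrec fun q : α × ((Bool × ℕ) × List ℕ) => q.2.1.1 :=
      Primrec.fst.comp (Primrec.fst.comp Primrec.snd)
    have e2 : Primrec fun q : α × ((Bool × ℕ) × List ℕ) => q.2.1.2 :=
      Primrec.snd.comp (Primrec.fst.comp Primrec.snd)
    have e3 : Primrec fun q : α × ((Bool × ℕ) × List ℕ) => q.2.2 := Primrec.snd.comp Primrec.snd
    refine Primrec.ite (Primrec.nat_lt.comp e2 (hn.comp Primrec.fst)) ?_ e3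
    exact Primrec.ite (Primrec.eq.comp e1 (Primrec.const true)) (Primrec.const [])
      (Primrec.list_cons.comp e2 e3)
  refine (Primrec.list_foldr hh (Primrec.const ([] : List ℕ)) h1).of_eq ?_
  intro a
  induction h a with
  | nil => rfl
  | cons e l ih =>
    obtain ⟨b, z⟩ := e
    rw [List.foldr_cons, ih]
    cases b
    · rw [Pool.Agent.D9b.pendL_A]
      simp
    · rw [Pool.Agent.D9b.pendL_D]
      simp

variable {P : Slots}

private theorem pBlk (hsp : Primrec P.sp) (hrs : Primrec P.rs) {h : α → List (Bool × ℕ)}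
    {t n : α → ℕ} (hh : Primrec h) (ht : Primrec t) (hn : Primrec n) :
    PrimrecPred fun a => P.blk (h a) (t a) (n a) := by
  refine exists_mem (p := fun a e => e.1 = true ∧ e.2 < n a ∧ n a ≤ e.2 + P.sp (t a) ∧
    e.2 % P.sp (t a) = P.rs (t a)) hh ?_
  have e1 : Primrec fun q : α × (Bool × ℕ) => q.2.1 := Primrec.fst.comp Primrec.snd
  have e2 : Primrec fun q : α × (Bool × ℕ) => q.2.2 := Primrec.snd.comp Primrec.snd
  have n' : Primrec fun q : α × (Bool × ℕ) => n q.1 := hn.comp Primrec.fst
  have s' : Primrec fun q : α × (Bool × ℕ) => P.sp (t q.1) := hsp.comp (ht.comp Primrec.fst)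
  have r' : Primrec fun q : α × (Bool × ℕ) => P.rs (t q.1) := hrs.comp (ht.comp Primrec.fst)
  exact (Primrec.eq.comp e1 (Primrec.const true)).and ((Primrec.nat_lt.comp e2 n').and
    ((Primrec.nat_le.comp n' (Primrec.nat_add.comp e2 s')).and
      (Primrec.eq.comp (Primrec.nat_mod.comp e2 s') r')))

private theorem pGt (hsp : Primrec P.sp) (hrs : Primrec P.rs) {h : α → List (Bool × ℕ)}
    {t n : α → ℕ} (hh : Primrec h) (ht : Primrec t) (hn : Primrec n) :
    PrimrecPred fun a => P.Gt (h a) (t a) (n a) :=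
  forall_lt (p := fun a i => P.blk (h a) i (n a)) ht
    (pBlk hsp hrs (hh.comp Primrec.fst) Primrec.snd (hn.comp Primrec.fst))

private theorem pPL (hsp : Primrec P.sp) (hrs : Primrec P.rs) {h : α → List (Bool × ℕ)}
    {t n : α → ℕ} (hh : Primrec h) (ht : Primrec t) (hn : Primrec n) :
    Primrec fun a => P.PL (h a) (t a) (n a) := by
  classical
  unfold Slots.PL
  refine pFilter (p := fun a x => ∀ m < n a + 1, x < m → P.Gt (h a) (t a) m) (pPend hh hn) ?_
  refine forall_lt (α := α × ℕ) (f := fun q => n q.1 + 1)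
    (p := fun q m => q.2 < m → P.Gt (h q.1) (t q.1) m)
    (Primrec.succ.comp (hn.comp Primrec.fst)) ?_
  refine imp (Primrec.nat_lt.comp (Primrec.snd.comp Primrec.fst) Primrec.snd) ?_
  exact pGt hsp hrs (hh.comp (Primrec.fst.comp Primrec.fst)) (ht.comp (Primrec.fst.comp Primrec.fst))
    Primrec.snd

theorem Slots.K_gt (P : Slots) (i : ℕ) : i < P.K i := by
  induction i with
  | zero => exact P.K_pos 0
  | succ i ih =>
    have h1 := P.KS i
    have h2 := P.sp_pos (i + 1)
    omega

theorem pend_len (n : ℕ) (h : List (Bool × ℕ)) : (pendL 0 n h).length ≤ h.length := by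
  refine (pendL_sublist 0 n h).length_le.trans ?_
  unfold plH
  rw [List.length_map]
  exact List.length_filter_le _ _

private theorem pOK (hsp : Primrec P.sp) (hrs : Primrec P.rs) (hK : Primrec P.K)
    {h : α → List (Bool × ℕ)} {n : α → ℕ} (hh : Primrec h) (hn : Primrec n) :
    PrimrecPred fun a => P.OK (h a) (n a) := by
  have h1 : PrimrecPred fun a => ∀ i < (h a).length + 1,
      ¬ P.blk (h a) i (n a) → (pendL 0 (n a) (h a)).length < P.K i := by
    refine forall_lt (p := fun a i => ¬ P.blk (h a) i (n a) →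
      (pendL 0 (n a) (h a)).length < P.K i)
      (Primrec.succ.comp (Primrec.list_length.comp hh)) ?_
    refine imp (pBlk hsp hrs (hh.comp Primrec.fst) Primrec.snd (hn.comp Primrec.fst)).not ?_
    exact Primrec.nat_lt.comp (Primrec.list_length.comp
      (pPend (hh.comp Primrec.fst) (hn.comp Primrec.fst))) (hK.comp Primrec.snd)
  refine h1.of_eq ?_
  intro a
  constructor
  · intro h2 i hi
    rcases Nat.lt_or_ge i ((h a).length + 1) with h3 | h3
    · exact h2 i h3 hi
    · have h4 := P.K_gt i
      have h5 := pend_len (n a) (h a)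
      omega
  · intro h2 i _ hi
    exact h2 i hi

private theorem pCnt (hsp : Primrec P.sp) (hrs : Primrec P.rs) {h : α → List (Bool × ℕ)}
    {t n y : α → ℕ} (hh : Primrec h) (ht : Primrec t) (hn : Primrec n) (hy : Primrec y) :
    Primrec fun a => (P.PL (h a) (t a) (n a)).countP (fun x => decide (y a < x)) := by
  have h1 : Primrec fun a => ((P.PL (h a) (t a) (n a)).filter (fun x => decide (y a < x))).length :=
    Primrec.list_length.comp (pFilter (p := fun a x => y a < x) (pPL hsp hrs hh ht hn)
      (Primrec.nat_lt.comp (hy.comp Primrec.fst) Primrec.snd))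
  exact h1.of_eq fun a => by rw [List.countP_eq_length_filter]

private theorem pCls (hsp : Primrec P.sp) (hrs : Primrec P.rs) {t y : α → ℕ}
    (ht : Primrec t) (hy : Primrec y) :
    PrimrecPred fun a => y a % P.sp (t a) = P.rs (t a) :=
  Primrec.eq.comp (Primrec.nat_mod.comp hy (hsp.comp ht)) (hrs.comp ht)

private theorem pFree {h : α → List (Bool × ℕ)} {y : α → ℕ} (hh : Primrec h) (hy : Primrec y) :
    PrimrecPred fun a => (true, y a) ∉ h a :=
  ((mem_rel (α := Bool × ℕ)).comp (Primrec.pair (Primrec.const true) hy) hh).not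

private theorem pAns (hsp : Primrec P.sp) (hrs : Primrec P.rs) (hK : Primrec P.K)
    {h : α → List (Bool × ℕ)} {n t y : α → ℕ} (hh : Primrec h) (hn : Primrec n) (ht : Primrec t)
    (hy : Primrec y) : PrimrecPred fun a => P.Ans (h a) (n a) (t a) (y a) := by
  have c1 := pGt hsp hrs hh ht hn
  have c2 := (pBlk hsp hrs hh ht hn).not
  have c3 : PrimrecPred fun a => P.K (t a) ≤ (pendL 0 (n a) (h a)).length :=
    Primrec.nat_le.comp (hK.comp ht) (Primrec.list_length.comp (pPend hh hn))
  have c4 : PrimrecPred fun a => y a < n a := Primrec.nat_lt.comp hy hn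
  have c5 := pCls hsp hrs ht hy
  have c6 := pFree hh hy
  have c7 : PrimrecPred fun a => ∃ x ∈ P.PL (h a) (t a) (n a), x ≤ y a :=
    exists_mem (p := fun a x => x ≤ y a) (pPL hsp hrs hh ht hn)
      (Primrec.nat_le.comp Primrec.snd (hy.comp Primrec.fst))
  have six : Primrec fun a => 6 * P.sp (t a) :=
    Primrec.nat_mul.comp (Primrec.const 6) (hsp.comp ht)
  have c8 : PrimrecPred fun a => ∀ y' < n a, y a < y' → y' % P.sp (t a) = P.rs (t a) →
      (true, y') ∉ h a → (P.PL (h a) (t a) (n a)).countP (fun x => decide (y' < x)) <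
        6 * P.sp (t a) := by
    refine forall_lt (p := fun a y' => y a < y' → y' % P.sp (t a) = P.rs (t a) →
      (true, y') ∉ h a → (P.PL (h a) (t a) (n a)).countP (fun x => decide (y' < x)) <
        6 * P.sp (t a)) hn ?_
    refine imp (Primrec.nat_lt.comp (hy.comp Primrec.fst) Primrec.snd) ?_
    refine imp (pCls hsp hrs (ht.comp Primrec.fst) Primrec.snd) ?_
    refine imp (pFree (hh.comp Primrec.fst) Primrec.snd) ?_
    exact Primrec.nat_lt.comp (pCnt hsp hrs (hh.comp Primrec.fst) (ht.comp Primrec.fst)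
      (hn.comp Primrec.fst) Primrec.snd) (six.comp Primrec.fst)
  have c9 : PrimrecPred fun a =>
      6 * P.sp (t a) ≤ (P.PL (h a) (t a) (n a)).countP (fun x => decide (y a < x)) :=
    Primrec.nat_le.comp six (pCnt hsp hrs hh ht hn hy)
  have c10 : PrimrecPred fun a => ∀ y' < y a, y' % P.sp (t a) = P.rs (t a) → (true, y') ∉ h a →
      ∀ x ∈ P.PL (h a) (t a) (n a), y' < x := by
    refine forall_lt (p := fun a y' => y' % P.sp (t a) = P.rs (t a) → (true, y') ∉ h a →
      ∀ x ∈ P.PL (h a) (t a) (n a), y' < x) hy ?_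
    refine imp (pCls hsp hrs (ht.comp Primrec.fst) Primrec.snd) ?_
    refine imp (pFree (hh.comp Primrec.fst) Primrec.snd) ?_
    exact forall_mem (p := fun (q : α × ℕ) x => q.2 < x) (pPL hsp hrs (hh.comp Primrec.fst)
      (ht.comp Primrec.fst) (hn.comp Primrec.fst))
      (Primrec.nat_lt.comp (Primrec.snd.comp Primrec.fst) Primrec.snd)
  refine (c1.and (c2.and (c3.and (c4.and (c5.and (c6.and (c7.and (c8.and (c9.or c10))))))))).of_eq
    ?_
  intro a
  constructor
  · rintro ⟨h1, h2, h3, h4, h5, h6, h7, h8, h9⟩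
    exact ⟨h1, h2, h3, h4, h5, h6, h7, h8, h9⟩
  · rintro ⟨h1, h2, h3, h4, h5, h6, h7, h8, h9⟩
    exact ⟨h1, h2, h3, h4, h5, h6, h7, h8, h9⟩

private theorem pLeg (hsp : Primrec P.sp) (hrs : Primrec P.rs) (hK : Primrec P.K)
    {h : α → List (Bool × ℕ)} {s y : α → ℕ} (hh : Primrec h) (hs : Primrec s)
    (hy : Primrec y) : PrimrecPred fun a => P.Leg (h a) (s a) (y a) := by
  have h1 : PrimrecPred fun a => ∃ n0 < s a + 1, (∀ n < n0, P.OK (h a) n) ∧
      ∃ t < (h a).length + 1, P.Ans (h a) n0 t (y a) := by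
    refine exists_lt (p := fun a n0 => (∀ n < n0, P.OK (h a) n) ∧
      ∃ t < (h a).length + 1, P.Ans (h a) n0 t (y a)) (Primrec.succ.comp hs) ?_
    refine PrimrecPred.and ?_ ?_
    · exact forall_lt (p := fun (q : α × ℕ) n => P.OK (h q.1) n) Primrec.snd
        (pOK hsp hrs hK (hh.comp (Primrec.fst.comp Primrec.fst)) Primrec.snd)
    · refine exists_lt (α := α × ℕ) (f := fun q => (h q.1).length + 1)
        (p := fun q t => P.Ans (h q.1) q.2 t (y q.1))
        (Primrec.succ.comp (Primrec.list_length.comp (hh.comp Primrec.fst))) ?_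
      exact pAns hsp hrs hK (hh.comp (Primrec.fst.comp Primrec.fst))
        (Primrec.snd.comp Primrec.fst) Primrec.snd (hy.comp (Primrec.fst.comp Primrec.fst))
  refine h1.of_eq ?_
  intro a
  constructor
  · rintro ⟨n0, h2, h3, t, _, h4⟩
    exact ⟨n0, Nat.lt_succ_iff.mp h2, h3, t, h4⟩
  · rintro ⟨n0, h2, h3, t, h4⟩
    refine ⟨n0, Nat.lt_succ_iff.mpr h2, h3, t, ?_, h4⟩
    have h5 := h4.big
    have h6 := P.K_gt t
    have h7 := pend_len n0 (h a)
    omega

open Classical in
/-- the answer of the machine -/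
noncomputable def Slots.stp (P : Slots) (s : ℕ) (h : List (Bool × ℕ)) : List (Bool × ℕ) :=
  (((List.range s).filter (fun y => decide (P.Leg h s y))).take 1).map (fun y => (true, y)) ++ h

/-- the run of the machine on the enumeration `a` -/
noncomputable def Slots.run (P : Slots) (a : ℕ → List ℕ) : ℕ → List (Bool × ℕ)
  | 0 => []
  | s + 1 => P.stp (s + 1)
      (((a (s + 1)).drop (a s).length).map (fun x => (false, x)) ++ Slots.run P a s)

theorem Slots.stp_cases (P : Slots) (s : ℕ) (h : List (Bool × ℕ)) :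
    (P.stp s h = h ∧ ∀ y < s, ¬ P.Leg h s y) ∨ ∃ y, P.Leg h s y ∧ P.stp s h = (true, y) :: h := by
  classical
  unfold Slots.stp
  set L := (List.range s).filter (fun y => decide (P.Leg h s y)) with hL
  rcases hc : L with _ | ⟨y, L'⟩
  · left
    refine ⟨by simp, ?_⟩
    intro y hy hl
    have h1 : y ∈ L := by
      rw [hL, List.mem_filter, List.mem_range, decide_eq_true_eq]
      exact ⟨hy, hl⟩
    rw [hc] at h1
    simp at h1
  · right
    refine ⟨y, ?_, by simp⟩
    have h1 : y ∈ L := by
      rw [hc]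
      exact List.mem_cons_self ..
    rw [hL, List.mem_filter, decide_eq_true_eq] at h1
    exact h1.2

theorem Slots.run_computable (P : Slots) (hsp : Primrec P.sp) (hrs : Primrec P.rs)
    (hK : Primrec P.K) (a : ℕ → List ℕ) (ha : Computable a) : Computable (P.run a) := by
  classical
  have h1 : Primrec₂ (fun (s : ℕ) (h : List (Bool × ℕ)) => P.stp s h) := by
    unfold Slots.stp
    refine Primrec.list_append.comp ?_ Primrec.snd
    refine Primrec.list_map (Primrec.list_take.comp (Primrec.const 1) ?_) ?_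
    · refine pFilter (α := ℕ × List (Bool × ℕ)) (β := ℕ) (f := fun q => List.range q.1)
        (p := fun q y => P.Leg q.2 q.1 y) (Primrec.list_range.comp Primrec.fst) ?_
      exact pLeg hsp hrs hK (Primrec.snd.comp Primrec.fst) (Primrec.fst.comp Primrec.fst)
        Primrec.snd
    · exact Primrec.pair (Primrec.const true) Primrec.snd
  have h2 : Primrec₂ (fun (l : List ℕ) (k : ℕ) =>
      (l.drop k).map (fun x => ((false, x) : Bool × ℕ))) := by
    refine Primrec.list_map (Primrec.list_drop.comp Primrec.snd Primrec.fst) ?_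
    exact Primrec.pair (Primrec.const false) Primrec.snd
  have h3 : Computable₂ (fun (s : ℕ) (h : List (Bool × ℕ)) => P.stp (s + 1)
      (((a (s + 1)).drop (a s).length).map (fun x => (false, x)) ++ h)) := by
    have e1 : Computable (fun q : ℕ × List (Bool × ℕ) => q.1 + 1) :=
      (Primrec.succ.comp Primrec.fst).to_comp
    have e2 : Computable (fun q : ℕ × List (Bool × ℕ) => a (q.1 + 1)) := ha.comp e1
    have e3 : Computable (fun q : ℕ × List (Bool × ℕ) => (a q.1).length) :=
      Primrec.list_length.to_comp.comp (ha.comp Computable.fst)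
    have e4 : Computable (fun q : ℕ × List (Bool × ℕ) =>
        ((a (q.1 + 1)).drop (a q.1).length).map (fun x => ((false, x) : Bool × ℕ))) :=
      h2.to_comp.comp e2 e3
    exact h1.to_comp.comp e1 (Primrec.list_append.to_comp.comp e4 Computable.snd)
  have h4 : Computable (fun s : ℕ => (Nat.rec [] (fun s h => P.stp (s + 1)
      (((a (s + 1)).drop (a s).length).map (fun x => (false, x)) ++ h)) s :
        List (Bool × ℕ))) :=
    Computable.nat_rec (f := fun s : ℕ => s) (g := fun _ => ([] : List (Bool × ℕ)))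
      (h := fun _ (q : ℕ × List (Bool × ℕ)) => P.stp (q.1 + 1)
        (((a (q.1 + 1)).drop (a q.1).length).map (fun x => (false, x)) ++ q.2))
      Computable.id (Computable.const _) (h3.comp (Computable.fst.comp Computable.snd)
        (Computable.snd.comp Computable.snd))
  refine h4.of_eq ?_
  intro s
  induction s with
  | zero => rfl
  | succ s ih =>
    simp only [Slots.run]
    rw [← ih]

end Pool.Agent.D9c
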