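import Pool.Agent.Lib.MP_d9c039_lc.V2.Base

set_option autoImplicit false

/-!
# MP_d9c039_lc, third machine (bounds on average): definitions

Histories are lists of events, newest first: `(false, x)` is the A-event `x`, `(true, y)` is the
mark `y`.  The slots are divided into classes; a cut `n` is blocked for the class `t` if the last slot
of the class `t` below `n` is marked.
-/

namespace Pool.Agent.D9c

open Pool.Agent.D9b (pendL drn plH)

/-- The classes of slots: class `t` is `{y | y % sp t = rs t}`; `K t` is the threshold for cuts that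
are blocked for the classes `< t` and not for the class `t`. -/
structure Slots where
  sp : ℕ → ℕ
  rs : ℕ → ℕ
  K : ℕ → ℕ
  rs_lt : ∀ t, rs t < sp t
  disj : ∀ t t' y, y % sp t = rs t → y % sp t' = rs t' → t = t'
  K0 : 24 * sp 0 ≤ K 0
  KS : ∀ t, K t + 24 * sp (t + 1) ≤ K (t + 1)

/-- the cut `n` is blocked for the class `t` -/
def Slots.blk (P : Slots) (h : List (Bool × ℕ)) (t n : ℕ) : Prop :=
  ∃ e ∈ h, e.1 = true ∧ e.2 < n ∧ n ≤ e.2 + P.sp t ∧ e.2 % P.sp t = P.rs t

/-- the cut `n` is blocked for all classes `< t` -/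
def Slots.Gt (P : Slots) (h : List (Bool × ℕ)) (t n : ℕ) : Prop := ∀ i < t, P.blk h i n

open Classical in
/-- the pending A-events `x` for the cut `n0` such that all cuts in `(x, n0]` are blocked for all
classes `< t` -/
noncomputable def Slots.PL (P : Slots) (h : List (Bool × ℕ)) (t n0 : ℕ) : List ℕ :=
  (pendL 0 n0 h).filter (fun x => decide (∀ n < n0 + 1, x < n → P.Gt h t n))

/-- no violation at the cut `n` -/
def Slots.OK (P : Slots) (h : List (Bool × ℕ)) (n : ℕ) : Prop :=
  ∀ i, ¬ P.blk h i n → (pendL 0 n h).length < P.K i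

/-- `y` is a slot that answers the violation at the cut `n0`, which has layer `t` -/
structure Slots.Ans (P : Slots) (h : List (Bool × ℕ)) (n0 t y : ℕ) : Prop where
  G : P.Gt h t n0
  nb : ¬ P.blk h t n0
  big : P.K t ≤ (pendL 0 n0 h).length
  lt : y < n0
  cls : y % P.sp t = P.rs t
  free : (true, y) ∉ h
  wit : ∃ x ∈ P.PL h t n0, x ≤ y
  hi : ∀ y' < n0, y < y' → y' % P.sp t = P.rs t → (true, y') ∉ h →
    (P.PL h t n0).countP (fun x => decide (y' < x)) < 6 * P.sp t
  lo : 6 * P.sp t ≤ (P.PL h t n0).countP (fun x => decide (y < x)) ∨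
    ∀ y' < y, y' % P.sp t = P.rs t → (true, y') ∉ h → ∀ x ∈ P.PL h t n0, y' < x

/-- `y` answers the least violation among the cuts `≤ s` -/
def Slots.Leg (P : Slots) (h : List (Bool × ℕ)) (s y : ℕ) : Prop :=
  ∃ n0 ≤ s, (∀ n < n0, P.OK h n) ∧ ∃ t, P.Ans h n0 t y

/-- the possible A-event of the stage `s + 1` -/
def Add (s : ℕ) (h h' : List (Bool × ℕ)) : Prop :=
  h' = h ∨ ∃ x < s + 1, x ∉ plH h ∧ h' = (false, x) :: h

/-- the histories of the machine -/
inductive Slots.Rch (P : Slots) : ℕ → List (Bool × ℕ) → Prop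
  | zero : Rch P 0 []
  | none (s : ℕ) (h h' : List (Bool × ℕ)) : Rch P s h → Add s h h' →
      (∀ n ≤ s + 1, P.OK h' n) → Rch P (s + 1) h'
  | mark (s : ℕ) (h h' : List (Bool × ℕ)) (y : ℕ) : Rch P s h → Add s h h' →
      P.Leg h' (s + 1) y → Rch P (s + 1) ((true, y) :: h')

/-- the marks of a history -/
def mkH (h : List (Bool × ℕ)) : List ℕ := (h.filter (fun e => e.1)).map Prod.snd

open Classical in
/-- the number of marks `< M` of the class `t` -/
noncomputable def Slots.D (P : Slots) (h : List (Bool × ℕ)) (t M : ℕ) : ℕ :=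
  ((mkH h).toFinset.filter (fun y => y < M ∧ y % P.sp t = P.rs t)).card

/-- `x` is pending only at cuts that are blocked for all classes `≤ t` -/
def Slots.Used (P : Slots) (h : List (Bool × ℕ)) (t x : ℕ) : Prop :=
  ∀ n, x ∈ pendL 0 n h → P.Gt h (t + 1) n

open Classical in
/-- the used A-events `< M` -/
noncomputable def Slots.U (P : Slots) (h : List (Bool × ℕ)) (t M : ℕ) : Finset ℕ :=
  (plH h).toFinset.filter (fun x => x < M ∧ P.Gt h t (x + 1) ∧ P.Used h t x)

open Classical in
/-- the A-events `< M` that are not pending at `M` -/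
noncomputable def Slots.V (P : Slots) (h : List (Bool × ℕ)) (t M : ℕ) : Finset ℕ :=
  (plH h).toFinset.filter (fun x => x < M ∧ P.Gt h t (x + 1) ∧ x ∉ pendL 0 M h)

open Classical in
/-- the number of cuts `< N` that are blocked for all classes `< t` -/
noncomputable def Slots.gc (P : Slots) (h : List (Bool × ℕ)) (t N : ℕ) : ℕ :=
  ((Finset.range N).filter (fun n => P.Gt h t n)).card

/-- the invariant (without the condition that there is no violation) -/
structure Slots.Inv (P : Slots) (s : ℕ) (h : List (Bool × ℕ)) : Prop where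
  lt : ∀ e ∈ h, e.2 < s
  nd : (plH h).Nodup
  mnd : (mkH h).Nodup
  dr : ∀ n, drn n h ≤ 1
  cn : ∀ t M, M % P.sp t = P.rs t → (true, M) ∉ h →
    6 * P.sp t * P.D h t M ≤ (P.U h t M).card + (P.V h t M).card

end Pool.Agent.D9c
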