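import Pool.Agent.Lib.MP_d9c039_lc.V3.Inv

set_option autoImplicit false

/-!
# MP_d9c039_lc, third machine: there is always a legal answer
-/

namespace Pool.Agent.D9c

open Pool.Agent.D9b (pendL drn plH pendL_range countP_range_le)

variable (P : Slots)

/-- for large `i` the cut is not blocked -/
theorem Slots.exists_not_blk (h : List (Bool × ℕ)) (n : ℕ) : ∃ i, ¬ P.blk h i n := by
  classical
  by_contra hcon
  push Not at hcon
  -- an injection from `ℕ` to the marks
  choose f hf using hcon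
  have hinj : Function.Injective f := by
    intro i j hij
    have h1 := (hf i).2.2.2.2
    have h2 := (hf j).2.2.2.2
    rw [hij] at h1
    exact P.disj i j _ h1 h2
  have h3 : (Set.range f).Infinite := Set.infinite_range_of_injective hinj
  apply h3
  apply (h.toFinset.finite_toSet).subset
  rintro e ⟨i, rfl⟩
  exact List.mem_toFinset.mpr (hf i).1

theorem Slots.K_mono {i t : ℕ} (hi : i ≤ t) : P.K i ≤ P.K t := by
  rcases Nat.lt_or_ge i t with h1 | h1
  · have := P.K_step i t h1
    omega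
  · have : i = t := le_antisymm hi h1
    rw [this]

/-- a violation has a legal answer -/
theorem Slots.exists_leg {h : List (Bool × ℕ)} {s : ℕ} (hnd : (plH h).Nodup)
    (hv : ¬ ∀ n ≤ s, P.OK h n) : ∃ y, P.Leg h s y := by
  classical
  have hex : ∃ n, n ≤ s ∧ ¬ P.OK h n := by
    push Not at hv
    exact hv
  set n0 := Nat.find hex with hn0
  obtain ⟨hs, hno⟩ : n0 ≤ s ∧ ¬ P.OK h n0 := Nat.find_spec hex
  have hleft : ∀ n < n0, P.OK h n := by
    intro n hn
    have h1 := Nat.find_min hex hn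
    by_contra h2
    exact h1 ⟨by omega, h2⟩
  obtain ⟨i0, hi0, hi1⟩ : ∃ i, ¬ P.blk h i n0 ∧ P.K i ≤ (pendL 0 n0 h).length := by
    unfold Slots.OK at hno
    push Not at hno
    exact hno
  have hex2 : ∃ i, ¬ P.blk h i n0 := ⟨i0, hi0⟩
  set t := Nat.find hex2 with ht
  have hnb : ¬ P.blk h t n0 := Nat.find_spec hex2
  have hG : P.Gt h t n0 := by
    intro i hi
    by_contra h1
    exact Nat.find_min hex2 hi h1
  have hbig : P.K t ≤ (pendL 0 n0 h).length :=
    (P.K_mono (Nat.find_min' hex2 hi0)).trans hi1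
  have hlen := P.PL_len hleft hG hbig
  have hPn := P.PL_nodup hnd t n0
  have hsp := P.sp_pos t
  obtain ⟨x1, hx1, hmin⟩ : ∃ x1 ∈ P.PL h t n0, ∀ x ∈ P.PL h t n0, x1 ≤ x := by
    have hne : (P.PL h t n0).toFinset.Nonempty := by
      rw [List.toFinset_nonempty_iff]
      intro h1
      rw [h1] at hlen
      simp at hlen
      omega
    obtain ⟨x1, h2, h3⟩ := Finset.exists_min_image (P.PL h t n0).toFinset id hne
    exact ⟨x1, List.mem_toFinset.mp h2, fun x hx => h3 x (List.mem_toFinset.mpr hx)⟩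
  -- the length of the interval
  have hint : x1 + P.sp t ≤ n0 := by
    have h1 := countP_range_le _ hPn x1 n0
    rw [List.countP_eq_length.mpr (by
      intro x hx
      have h2 := (pendL_range 0 n0 h x ((P.mem_PL).mp hx).1).2
      have h3 := hmin x hx
      simpa using ⟨h3, h2⟩)] at h1
    omega
  -- the free slots
  set F : Finset ℕ := (Finset.range n0).filter
    (fun y => x1 ≤ y ∧ y % P.sp t = P.rs t ∧ (true, y) ∉ h) with hF
  have hFmem : ∀ y, y ∈ F ↔ y < n0 ∧ x1 ≤ y ∧ y % P.sp t = P.rs t ∧ (true, y) ∉ h := by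
    intro y
    rw [hF, Finset.mem_filter, Finset.mem_range]
  have hFne : F.Nonempty := by
    obtain ⟨z, hz1, hz2, hz3⟩ := P.win t n0 (by omega)
    refine ⟨z, (hFmem z).mpr ⟨hz1, by omega, hz3, ?_⟩⟩
    intro h1
    exact hnb ⟨(true, z), h1, rfl, hz1, hz2, hz3⟩
  set F' : Finset ℕ := F.filter
    (fun y => 6 * P.sp t ≤ (P.PL h t n0).countP (fun x => decide (y < x))) with hF'
  by_cases hne : F'.Nonempty
  · have h1 := Finset.max'_mem F' hne
    set y := F'.max' hne with hy
    rw [hF', Finset.mem_filter, hFmem] at h1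
    obtain ⟨⟨h2, h3, h4, h5⟩, h6⟩ := h1
    refine ⟨y, n0, hs, hleft, t, ⟨hG, hnb, hbig, h2, h4, h5, ⟨x1, hx1, h3⟩, ?_, Or.inl h6⟩⟩
    intro y' hy' hyy hc hf
    by_contra h7
    have h8 : y' ∈ F' := by
      rw [hF', Finset.mem_filter, hFmem]
      exact ⟨⟨hy', by omega, hc, hf⟩, by omega⟩
    have h9 := Finset.le_max' F' y' h8
    omega
  · have h1 := Finset.min'_mem F hFne
    set y := F.min' hFne with hy
    rw [hFmem] at h1
    obtain ⟨h2, h3, h4, h5⟩ := h1
    refine ⟨y, n0, hs, hleft, t, ⟨hG, hnb, hbig, h2, h4, h5, ⟨x1, hx1, h3⟩, ?_, Or.inr ?_⟩⟩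
    · intro y' hy' hyy hc hf
      by_contra h7
      apply hne
      refine ⟨y', ?_⟩
      rw [hF', Finset.mem_filter, hFmem]
      exact ⟨⟨hy', by omega, hc, hf⟩, by omega⟩
    · intro y' hyy hc hf x hx
      by_contra h7
      have h8 : ¬ x1 ≤ y' := by
        intro h9
        have h10 : y' ∈ F := (hFmem y').mpr ⟨by omega, h9, hc, hf⟩
        have h11 := Finset.min'_le F y' h10
        omega
      have h12 := hmin x hx
      omega

end Pool.Agent.D9c
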