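import Pool.Agent.Lib.MP_d9c039_lc.V3.Defs

set_option autoImplicit false

/-!
# MP_d9c039_lc, third machine: the invariant
-/

namespace Pool.Agent.D9c

open Pool.Agent.D9b (pendL drn plH pendL_D pendL_A drn_D drn_A pendL_range pendL_mem_pl pendL_filter
  pendL_lower pendL_split_length drn_of_pend plH_cons_A plH_cons_D pendL_sublist countP_range_le)

variable (P : Slots)

theorem Slots.blk_mono {h h' : List (Bool × ℕ)} (hh : ∀ e ∈ h, e ∈ h') {t n : ℕ}
    (hb : P.blk h t n) : P.blk h' t n := by
  obtain ⟨e, he, h1⟩ := hb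
  exact ⟨e, hh e he, h1⟩

theorem Slots.Gt_mono {h h' : List (Bool × ℕ)} (hh : ∀ e ∈ h, e ∈ h') {t n : ℕ}
    (hb : P.Gt h t n) : P.Gt h' t n := fun i hi => P.blk_mono hh (hb i hi)

theorem Slots.K_step (i t : ℕ) (hi : i < t) : P.K i + 24 * P.sp t ≤ P.K t := by
  induction t with
  | zero => omega
  | succ t ih =>
    have h1 := P.KS t
    rcases Nat.lt_succ_iff_lt_or_eq.mp hi with h2 | h2
    · have := ih h2
      omega
    · rw [h2]
      exact h1

theorem Slots.K_ge (t : ℕ) : 24 * P.sp t ≤ P.K t := by
  cases t with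
  | zero => exact P.K0
  | succ t => have := P.KS t; omega

theorem Slots.sp_pos (t : ℕ) : 0 < P.sp t := (Nat.zero_le _).trans_lt (P.rs_lt t)

theorem Slots.K_pos (t : ℕ) : 0 < P.K t := by
  have h1 := P.K_ge t
  have h2 := P.sp_pos t
  omega

/-- every window of length `sp t` contains a slot of the class `t` -/
theorem Slots.win (t n : ℕ) (hn : P.sp t ≤ n) :
    ∃ z, z < n ∧ n ≤ z + P.sp t ∧ z % P.sp t = P.rs t := by
  have h1 := P.rs_lt t
  refine ⟨P.rs t + P.sp t * ((n - 1 - P.rs t) / P.sp t), ?_, ?_, ?_⟩
  · have := Nat.mul_div_le (n - 1 - P.rs t) (P.sp t)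
    omega
  · have h2 := Nat.div_add_mod (n - 1 - P.rs t) (P.sp t)
    have h3 := Nat.mod_lt (n - 1 - P.rs t) (P.sp_pos t)
    omega
  · rw [Nat.add_mul_mod_self_left, Nat.mod_eq_of_lt h1]

theorem mem_plH {h : List (Bool × ℕ)} {x : ℕ} : x ∈ plH h ↔ (false, x) ∈ h := by
  unfold plH
  constructor
  · intro hx
    obtain ⟨e, he, h1⟩ := List.mem_map.mp hx
    obtain ⟨h2, h3⟩ := List.mem_filter.mp he
    obtain ⟨b, z⟩ := e
    cases b
    · simp only at h1
      rw [← h1]
      exact h2
    · simp at h3
  · intro hx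
    exact List.mem_map.mpr ⟨(false, x), List.mem_filter.mpr ⟨hx, rfl⟩, rfl⟩

theorem mem_mkH {h : List (Bool × ℕ)} {x : ℕ} : x ∈ mkH h ↔ (true, x) ∈ h := by
  unfold mkH
  constructor
  · intro hx
    obtain ⟨e, he, h1⟩ := List.mem_map.mp hx
    obtain ⟨h2, h3⟩ := List.mem_filter.mp he
    obtain ⟨b, z⟩ := e
    cases b
    · simp at h3
    · simp only at h1
      rw [← h1]
      exact h2
  · intro hx
    exact List.mem_map.mpr ⟨(true, x), List.mem_filter.mpr ⟨hx, rfl⟩, rfl⟩

theorem mkH_cons_A (x : ℕ) (h : List (Bool × ℕ)) : mkH ((false, x) :: h) = mkH h := rfl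
theorem mkH_cons_D (y : ℕ) (h : List (Bool × ℕ)) : mkH ((true, y) :: h) = y :: mkH h := rfl

/-- the elements of `PL` -/
theorem Slots.mem_PL {h : List (Bool × ℕ)} {t n0 x : ℕ} :
    x ∈ P.PL h t n0 ↔ x ∈ pendL 0 n0 h ∧ ∀ n < n0 + 1, x < n → P.Gt h t n := by
  classical
  unfold Slots.PL
  rw [List.mem_filter]
  exact and_congr_right (fun _ => decide_eq_true_iff)

/-- there are many pending A-events in the component -/
theorem Slots.PL_len {h : List (Bool × ℕ)} {t n0 : ℕ} (hok : ∀ n < n0, P.OK h n)
    (hG : P.Gt h t n0) (hbig : P.K t ≤ (pendL 0 n0 h).length) :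
    24 * P.sp t ≤ (P.PL h t n0).length := by
  classical
  by_cases hex : ∃ n < n0, ¬ P.Gt h t n
  · obtain ⟨m, hm, hmax⟩ : ∃ m, (m < n0 ∧ ¬ P.Gt h t m) ∧ ∀ n < n0, m < n → P.Gt h t n := by
      have hne : ((Finset.range n0).filter (fun n => ¬ P.Gt h t n)).Nonempty := by
        obtain ⟨n, h1, h2⟩ := hex
        exact ⟨n, by simpa using ⟨h1, h2⟩⟩
      have hmem := Finset.max'_mem _ hne
      rw [Finset.mem_filter, Finset.mem_range] at hmem
      refine ⟨_, hmem, ?_⟩
      intro n hn hmn
      by_contra h3
      have h4 := Finset.le_max' _ n (show n ∈ (Finset.range n0).filter (fun n => ¬ P.Gt h t n) by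
        simpa using ⟨hn, h3⟩)
      omega
    obtain ⟨hm1, hm2⟩ := hm
    unfold Slots.Gt at hm2
    push Not at hm2
    obtain ⟨i, hi, hi2⟩ := hm2
    have h1 := hok m hm1 i hi2
    have h2 := P.K_step i t hi
    have h3 := pendL_split_length 0 m n0 h (Nat.zero_le _) hm1.le
    have h4 : (pendL m n0 h).length ≤ (P.PL h t n0).length := by
      rw [pendL_filter 0 m n0 h (Nat.zero_le _)]
      unfold Slots.PL
      rw [← List.countP_eq_length_filter, ← List.countP_eq_length_filter]
      apply List.countP_mono_left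
      intro x hx h5
      simp only [decide_eq_true_eq] at h5 ⊢
      intro n hn hxn
      rcases Nat.lt_succ_iff_lt_or_eq.mp hn with h6 | h6
      · exact hmax n h6 (by omega)
      · rw [h6]; exact hG
    omega
  · push Not at hex
    have h1 : P.PL h t n0 = pendL 0 n0 h := by
      unfold Slots.PL
      rw [List.filter_eq_self]
      intro x hx
      simp only [decide_eq_true_eq]
      intro n hn _
      rcases Nat.lt_succ_iff_lt_or_eq.mp hn with h6 | h6
      · exact hex n h6
      · rw [h6]; exact hG
    rw [h1]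
    exact (P.K_ge t).trans hbig

theorem Slots.Used_D {h : List (Bool × ℕ)} {t x : ℕ} (y : ℕ) (hu : P.Used h t x) :
    P.Used ((true, y) :: h) t x := by
  intro n hn
  rw [pendL_D] at hn
  split_ifs at hn with h1
  · simp at hn
  · exact P.Gt_mono (fun e he => List.mem_cons_of_mem _ he) (hu n hn)

theorem Slots.U_D (h : List (Bool × ℕ)) (t M y : ℕ) : P.U h t M ⊆ P.U ((true, y) :: h) t M := by
  classical
  intro x hx
  unfold Slots.U at hx ⊢
  rw [Finset.mem_filter] at hx ⊢
  obtain ⟨h1, h2, h3, h4⟩ := hx
  refine ⟨by rwa [plH_cons_D], h2, P.Gt_mono (fun e he => List.mem_cons_of_mem _ he) h3,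
    P.Used_D y h4⟩

theorem Slots.V_D (h : List (Bool × ℕ)) (t M y : ℕ) : P.V h t M ⊆ P.V ((true, y) :: h) t M := by
  classical
  intro x hx
  unfold Slots.V at hx ⊢
  rw [Finset.mem_filter] at hx ⊢
  obtain ⟨h1, h2, h3, h4⟩ := hx
  refine ⟨by rwa [plH_cons_D], h2, P.Gt_mono (fun e he => List.mem_cons_of_mem _ he) h3, ?_⟩
  rw [pendL_D]
  split_ifs
  · simp
  · exact h4

/-- a list of at least `q + s` distinct numbers `≥ a` has at least `q` elements `≥ a + s` -/
theorem many (L : List ℕ) (hL : L.Nodup) (a s q : ℕ) (ha : ∀ x ∈ L, a ≤ x)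
    (hq : q + s ≤ L.length) : q ≤ L.countP (fun x => decide (a + s ≤ x)) := by
  have h1 := countP_range_le L hL a (a + s)
  have h2 : L.length = L.countP (fun x => decide (a + s ≤ x)) +
      L.countP (fun x => ¬ decide (a + s ≤ x)) := List.length_eq_countP_add_countP _
  have h3 : L.countP (fun x => ¬ decide (a + s ≤ x)) ≤
      L.countP (fun x => decide (a ≤ x ∧ x < a + s)) := by
    apply List.countP_mono_left
    intro x hx h4
    have := ha x hx
    simp only [decide_eq_true_eq, not_le] at h4 ⊢
    omega
  omega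

theorem Slots.PL_nodup {h : List (Bool × ℕ)} (hnd : (plH h).Nodup) (t n0 : ℕ) :
    (P.PL h t n0).Nodup := by
  unfold Slots.PL
  exact (hnd.sublist (pendL_sublist 0 n0 h)).filter _

/-- the counting step, for a mark `y` of the class `t`, `y < M`: there are `6 sp t` new elements in
`U` or in `V` -/
theorem Slots.step_count {h : List (Bool × ℕ)} {n0 t y M : ℕ} (hnd : (plH h).Nodup)
    (hok : ∀ n < n0, P.OK h n) (ha : P.Ans h n0 t y) (hM : M % P.sp t = P.rs t)
    (hMf : (true, M) ∉ h) (hyM : y < M) :
    (P.U h t M).card + (P.V h t M).card + 6 * P.sp t ≤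
      (P.U ((true, y) :: h) t M).card + (P.V ((true, y) :: h) t M).card := by
  classical
  have hlen := P.PL_len hok ha.G ha.big
  have hPn := P.PL_nodup hnd t n0
  have hsp := P.sp_pos t
  have hmono : ∀ e ∈ h, e ∈ (true, y) :: h := fun e he => List.mem_cons_of_mem _ he
  -- the elements of `PL`
  have hel : ∀ x ∈ P.PL h t n0, x ∈ (plH h).toFinset ∧ x < n0 ∧ P.Gt h t (x + 1) ∧
      x ∈ pendL 0 n0 h ∧ ¬ P.Used h t x := by
    intro x hx
    rw [P.mem_PL] at hx
    obtain ⟨h1, h2⟩ := hx
    have h3 := (pendL_range 0 n0 h x h1).2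
    refine ⟨List.mem_toFinset.mpr (pendL_mem_pl 0 n0 h x h1), h3, h2 (x + 1) (by omega) (by omega),
      h1, ?_⟩
    intro h4
    exact ha.nb (h4 n0 h1 t (Nat.lt_succ_self t))
  rcases Nat.lt_or_ge M n0 with hMn | hMn
  · -- the cut `n0` is to the right of `M`
    have h1 := ha.hi M hMn hyM hM hMf
    have h2 : 6 * P.sp t ≤ (P.PL h t n0).countP (fun x => decide (x < M)) := by
      have h3 : (P.PL h t n0).length = (P.PL h t n0).countP (fun x => decide (x < M)) +
          (P.PL h t n0).countP (fun x => ¬ decide (x < M)) := List.length_eq_countP_add_countP _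
      have h4 : (P.PL h t n0).countP (fun x => ¬ decide (x < M)) ≤
          (P.PL h t n0).countP (fun x => decide (M < x)) +
          (P.PL h t n0).countP (fun x => decide (M ≤ x ∧ x < M + 1)) := by
        generalize P.PL h t n0 = L
        induction L with
        | nil => simp
        | cons a L ih =>
          simp only [List.countP_cons, decide_eq_true_eq] at ih ⊢
          split_ifs <;> omega
      have h5 := countP_range_le _ hPn M (M + 1)
      omega
    -- the new elements of `V`
    set S := ((P.PL h t n0).filter (fun x => decide (x < M))).toFinset with hS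
    have hSc : 6 * P.sp t ≤ S.card := by
      rw [hS, List.toFinset_card_of_nodup (hPn.filter _), ← List.countP_eq_length_filter]
      exact h2
    have hSV : S ⊆ P.V ((true, y) :: h) t M \ P.V h t M := by
      intro x hx
      rw [hS, List.mem_toFinset, List.mem_filter, decide_eq_true_eq] at hx
      obtain ⟨hx1, hx2⟩ := hx
      obtain ⟨e1, e2, e3, e4, e5⟩ := hel x hx1
      rw [Finset.mem_sdiff]
      constructor
      · unfold Slots.V
        rw [Finset.mem_filter]
        refine ⟨by rwa [plH_cons_D], hx2, P.Gt_mono hmono e3, ?_⟩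
        rw [pendL_D, if_pos hyM]
        simp
      · intro h6
        unfold Slots.V at h6
        rw [Finset.mem_filter] at h6
        apply h6.2.2.2
        apply (pendL_lower 0 M n0 h hMn.le).subset
        rw [List.mem_filter, decide_eq_true_eq]
        exact ⟨e4, hx2⟩
    have h6 := Finset.card_le_card hSV
    rw [Finset.card_sdiff_of_subset (P.V_D h t M y)] at h6
    have h7 := Finset.card_le_card (P.V_D h t M y)
    have h8 := Finset.card_le_card (P.U_D h t M y)
    omega
  · -- the cut `n0` is at most `M`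
    obtain ⟨S, hSP, hSu, hSc⟩ : ∃ S : Finset ℕ, (∀ x ∈ S, x ∈ P.PL h t n0) ∧
        (∀ x ∈ S, P.Used ((true, y) :: h) t x) ∧ 6 * P.sp t ≤ S.card := by
      rcases ha.lo with h1 | h1
      · refine ⟨((P.PL h t n0).filter (fun x => decide (y < x))).toFinset, ?_, ?_, ?_⟩
        · intro x hx
          rw [List.mem_toFinset, List.mem_filter] at hx
          exact hx.1
        · intro x hx n hn
          rw [List.mem_toFinset, List.mem_filter, decide_eq_true_eq] at hx
          have h2 := (pendL_range 0 n _ x hn).2
          rw [pendL_D, if_pos (hx.2.trans h2)] at hn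
          simp at hn
        · rw [List.toFinset_card_of_nodup (hPn.filter _), ← List.countP_eq_length_filter]
          exact h1
      · -- the least element of `PL`
        obtain ⟨x1, hx1, hmin⟩ : ∃ x1 ∈ P.PL h t n0, ∀ x ∈ P.PL h t n0, x1 ≤ x := by
          obtain ⟨w, hw, _⟩ := ha.wit
          obtain ⟨x1, h2, h3⟩ := Finset.exists_min_image (P.PL h t n0).toFinset id
            ⟨w, List.mem_toFinset.mpr hw⟩
          exact ⟨x1, List.mem_toFinset.mp h2, fun x hx => h3 x (List.mem_toFinset.mpr hx)⟩
        refine ⟨((P.PL h t n0).filter (fun x => decide (x1 + P.sp t ≤ x))).toFinset, ?_, ?_, ?_⟩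
        · intro x hx
          rw [List.mem_toFinset, List.mem_filter] at hx
          exact hx.1
        · intro x hx n hn
          rw [List.mem_toFinset, List.mem_filter, decide_eq_true_eq] at hx
          obtain ⟨hxP, hx2⟩ := hx
          have h2 := (pendL_range 0 n _ x hn).2
          rw [pendL_D] at hn
          split_ifs at hn with h3
          · simp at hn
          · have h4 := ha.lt
            intro i hi
            rcases Nat.lt_succ_iff_lt_or_eq.mp hi with h5 | h5
            · exact P.blk_mono hmono (((P.mem_PL).mp hxP).2 n (by omega) h2 i h5)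
            · rw [h5]
              obtain ⟨z, hz1, hz2, hz3⟩ := P.win t n (by omega)
              by_cases hz : (true, z) ∈ h
              · exact P.blk_mono hmono ⟨(true, z), hz, rfl, hz1, hz2, hz3⟩
              · have h6 := h1 z (by omega) hz3 hz x1 hx1
                omega
        · rw [List.toFinset_card_of_nodup (hPn.filter _), ← List.countP_eq_length_filter]
          exact many _ hPn x1 (P.sp t) (6 * P.sp t) hmin (by omega)
    have hSU : S ⊆ P.U ((true, y) :: h) t M \ P.U h t M := by
      intro x hx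
      obtain ⟨e1, e2, e3, e4, e5⟩ := hel x (hSP x hx)
      rw [Finset.mem_sdiff]
      constructor
      · unfold Slots.U
        rw [Finset.mem_filter]
        exact ⟨by rwa [plH_cons_D], by omega, P.Gt_mono hmono e3, hSu x hx⟩
      · intro h6
        unfold Slots.U at h6
        rw [Finset.mem_filter] at h6
        exact e5 h6.2.2.2
    have h6 := Finset.card_le_card hSU
    rw [Finset.card_sdiff_of_subset (P.U_D h t M y)] at h6
    have h7 := Finset.card_le_card (P.V_D h t M y)
    have h8 := Finset.card_le_card (P.U_D h t M y)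
    omega

/-- all events are below the cuts `n` and `m` -/
theorem drn_stable (h : List (Bool × ℕ)) (n m : ℕ) (hn : ∀ e ∈ h, e.2 < n)
    (hm : ∀ e ∈ h, e.2 < m) : drn n h = drn m h := by
  induction h with
  | nil => rfl
  | cons e h ih =>
    obtain ⟨b, z⟩ := e
    have h1 := hn (b, z) (List.mem_cons_self ..)
    have h2 := hm (b, z) (List.mem_cons_self ..)
    have h3 := ih (fun e he => hn e (List.mem_cons_of_mem _ he))
      (fun e he => hm e (List.mem_cons_of_mem _ he))
    cases b
    · rw [drn_A, drn_A, if_pos h1, if_pos h2]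
    · rw [drn_D, drn_D, if_pos h1, if_pos h2, h3]

theorem Slots.blk_A (h : List (Bool × ℕ)) (x t n : ℕ) :
    P.blk ((false, x) :: h) t n ↔ P.blk h t n := by
  constructor
  · rintro ⟨e, he, h1⟩
    rcases List.mem_cons.mp he with h2 | h2
    · rw [h2] at h1
      simp at h1
    · exact ⟨e, h2, h1⟩
  · exact P.blk_mono (fun e he => List.mem_cons_of_mem _ he)

theorem Slots.Gt_A (h : List (Bool × ℕ)) (x t n : ℕ) :
    P.Gt ((false, x) :: h) t n ↔ P.Gt h t n := by
  unfold Slots.Gt
  exact forall_congr' (fun i => forall_congr' (fun _ => P.blk_A h x i n))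

/-- the A-event of a stage -/
theorem Slots.inv_add {s : ℕ} {h h' : List (Bool × ℕ)} (hi : P.Inv s h) (ha : Add s h h') :
    P.Inv (s + 1) h' := by
  classical
  rcases ha with rfl | ⟨x, hx, hxn, rfl⟩
  · exact
      { lt := fun e he => (hi.lt e he).trans (Nat.lt_succ_self s)
        nd := hi.nd
        mnd := hi.mnd
        dr := hi.dr
        cn := hi.cn }
  · refine ⟨?_, ?_, ?_, ?_, ?_⟩
    · intro e he
      rcases List.mem_cons.mp he with h1 | h1
      · rw [h1]; exact hx
      · exact (hi.lt e h1).trans (Nat.lt_succ_self s)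
    · rw [plH_cons_A, List.nodup_cons]
      exact ⟨hxn, hi.nd⟩
    · rw [mkH_cons_A]
      exact hi.mnd
    · intro n
      rw [drn_A]
      split_ifs
      · omega
      · exact hi.dr n
    · intro t M hM hMf
      have hMf' : (true, M) ∉ h := fun h1 => hMf (List.mem_cons_of_mem _ h1)
      have h1 := hi.cn t M hM hMf'
      have h2 : P.D ((false, x) :: h) t M = P.D h t M := by
        unfold Slots.D
        rw [mkH_cons_A]
      have hne : ∀ z ∈ (plH h).toFinset, z ≠ x := by
        intro z hz h3
        rw [h3, List.mem_toFinset] at hz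
        exact hxn hz
      have hpend : ∀ z ∈ (plH h).toFinset, ∀ n, z ∈ pendL 0 n ((false, x) :: h) →
          z ∈ pendL 0 n h := by
        intro z hz n h3
        rw [pendL_A] at h3
        split_ifs at h3 with h4
        · rcases List.mem_cons.mp h3 with h5 | h5
          · exact absurd h5 (hne z hz)
          · exact h5
        · exact h3
      have hU : P.U h t M ⊆ P.U ((false, x) :: h) t M := by
        intro z hz
        unfold Slots.U at hz ⊢
        rw [Finset.mem_filter] at hz ⊢
        obtain ⟨g1, g2, g3, g4⟩ := hz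
        refine ⟨?_, g2, (P.Gt_A h x t _).mpr g3, ?_⟩
        · rw [plH_cons_A, List.mem_toFinset]
          exact List.mem_cons_of_mem _ (List.mem_toFinset.mp g1)
        · intro n hn
          exact (P.Gt_A h x _ _).mpr (g4 n (hpend z g1 n hn))
      have hV : P.V h t M ⊆ P.V ((false, x) :: h) t M := by
        intro z hz
        unfold Slots.V at hz ⊢
        rw [Finset.mem_filter] at hz ⊢
        obtain ⟨g1, g2, g3, g4⟩ := hz
        refine ⟨?_, g2, (P.Gt_A h x t _).mpr g3, ?_⟩
        · rw [plH_cons_A, List.mem_toFinset]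
          exact List.mem_cons_of_mem _ (List.mem_toFinset.mp g1)
        · exact fun h3 => g4 (hpend z g1 M h3)
      have h3 := Finset.card_le_card hU
      have h4 := Finset.card_le_card hV
      rw [h2]
      omega

/-- the mark of a stage -/
theorem Slots.inv_mark {s : ℕ} {h h' : List (Bool × ℕ)} {y : ℕ} (hi : P.Inv s h)
    (hok : ∀ n ≤ s, P.OK h n) (ha : Add s h h') (hl : P.Leg h' (s + 1) y) :
    P.Inv (s + 1) ((true, y) :: h') ∧ ∀ n ≤ s + 1, P.OK ((true, y) :: h') n := by
  classical
  have hi' := P.inv_add hi ha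
  obtain ⟨n0, hn0, hleft, t, hA⟩ := hl
  obtain ⟨w, hwP, hwy⟩ := hA.wit
  have hw := ((P.mem_PL).mp hwP).1
  refine ⟨⟨?_, ?_, ?_, ?_, ?_⟩, ?_⟩
  · intro e he
    rcases List.mem_cons.mp he with h1 | h1
    · rw [h1]
      exact hA.lt.trans_le hn0
    · exact hi'.lt e h1
  · rw [plH_cons_D]
    exact hi'.nd
  · rw [mkH_cons_D, List.nodup_cons]
    exact ⟨fun h1 => hA.free (mem_mkH.mp h1), hi'.mnd⟩
  · intro n
    rw [drn_D]
    split_ifs with hyn
    · have hz : drn n h' = 0 := by
        rcases Nat.lt_or_ge n0 n with h1 | h1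
        · -- the cut is to the right of `n0`
          have hcase : n0 = s + 1 ∨ ∃ x < n0, h' = (false, x) :: h := by
            by_contra hcon
            push Not at hcon
            obtain ⟨c1, c2⟩ := hcon
            have hns : n0 ≤ s := by omega
            have hsame : P.OK h' n0 := by
              rcases ha with rfl | ⟨x, hx, hxn, rfl⟩
              · exact hok n0 hns
              · have hx0 : ¬ x < n0 := fun h2 => c2 x h2 rfl
                intro i hb
                rw [pendL_A, if_neg (fun h2 => hx0 h2.2)]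
                exact hok n0 hns i (fun h2 => hb ((P.blk_A h x i n0).mpr h2))
            have := hsame t hA.nb
            have := hA.big
            omega
          rcases hcase with h2 | ⟨x, hx, h2⟩
          · have h3 : ∀ e ∈ h', e.2 < n0 := by
              intro e he
              rw [h2]
              exact hi'.lt e he
            have h4 : ∀ e ∈ h', e.2 < n := fun e he => (h3 e he).trans h1
            rw [drn_stable h' n n0 h4 h3]
            exact drn_of_pend 0 n0 n0 w h' hw (hwy.trans_lt hA.lt) le_rfl
          · rw [h2, drn_A, if_pos (hx.trans h1)]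
        · exact drn_of_pend 0 n0 n w h' hw (hwy.trans_lt hyn) h1
      omega
    · exact hi'.dr n
  · intro t' M hM hMf
    have hMf' : (true, M) ∉ h' := fun h1 => hMf (List.mem_cons_of_mem _ h1)
    have hMy : M ≠ y := fun h1 => hMf (by rw [h1]; exact List.mem_cons_self ..)
    have h1 := hi'.cn t' M hM hMf'
    have hU := Finset.card_le_card (P.U_D h' t' M y)
    have hV := Finset.card_le_card (P.V_D h' t' M y)
    by_cases hc : t' = t ∧ y < M
    · obtain ⟨rfl, hyM⟩ := hc
      have h2 := P.step_count hi'.nd hleft hA hM hMf' hyM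
      have h3 : P.D ((true, y) :: h') t' M ≤ P.D h' t' M + 1 := by
        unfold Slots.D
        rw [mkH_cons_D, List.toFinset_cons, Finset.filter_insert]
        split_ifs
        · exact Finset.card_insert_le _ _
        · omega
      have h4 := Nat.mul_le_mul_left (6 * P.sp t') h3
      have h5 : 6 * P.sp t' * (P.D h' t' M + 1) = 6 * P.sp t' * P.D h' t' M + 6 * P.sp t' := by
        ring
      omega
    · have h3 : P.D ((true, y) :: h') t' M = P.D h' t' M := by
        unfold Slots.D
        rw [mkH_cons_D, List.toFinset_cons, Finset.filter_insert, if_neg]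
        rintro ⟨h4, h5⟩
        exact hc ⟨P.disj t' t y h5 hA.cls, h4⟩
      rw [h3]
      omega
  · intro n hn i hb
    rw [pendL_D]
    split_ifs with h1
    · exact P.K_pos i
    · have h2 := hA.lt
      apply hleft n (by omega) i
      intro h3
      exact hb (P.blk_mono (fun e he => List.mem_cons_of_mem _ he) h3)

theorem Slots.inv_zero : P.Inv 0 [] := by
  classical
  refine ⟨by simp, by simp, by simp [mkH], by simp [drn], ?_⟩
  intro t M _ _
  simp [Slots.D, mkH]

/-- the invariant holds for all histories of the machine -/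
theorem Slots.inv_all {s : ℕ} {h : List (Bool × ℕ)} (hr : P.Rch s h) :
    P.Inv s h ∧ ∀ n ≤ s, P.OK h n := by
  induction hr with
  | zero =>
    refine ⟨P.inv_zero, ?_⟩
    intro n _ i _
    simpa using P.K_pos i
  | none s h h' _ ha hok ih => exact ⟨P.inv_add ih.1 ha, hok⟩
  | mark s h h' y _ ha hl ih => exact P.inv_mark ih.1 ih.2 ha hl

end Pool.Agent.D9c
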