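import Pool.Agent.Lib.MP_d9c039_lc.V2.Spec

set_option autoImplicit false

/-!
# MP_d9c039_lc: the parameters of module P1 with the places `y % 8 = 2` in place of `y % 4 = 2`

So the class `y % 8 = 6` stays free for the third machine.
-/

namespace Pool.Agent.D9b

open Pool.Agent.D9 (LS cnt resp tabS nplays tower)

/-- the places of the marks of the board `[0, S')` with first child `[0, S)`, outside the class
`y % 8 = 6` -/
def mList8 (S S' : ℕ) : List ℕ :=
  (List.range S').filter (fun y => decide ((y < S ∧ S ≤ 2 * y ∧ y % 8 = 2) ∨ (S ≤ y ∧ y % 4 = 0)))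

/-- `S_P1` with `mList8` -/
def S_P8 : Prop := ∀ L : ℕ, ∃ P : Par, P.s P.d = ss (L + 1) ∧
  (∀ l < P.d, ∀ y < P.s P.d, P.MS l y ∨ P.MU l y → y ∈ mList8 (ss L) (ss (L + 1))) ∧
  (∀ e ∈ C1 L, e.1 < P.s P.d ∧ ∃ m ≤ P.d,
    (∀ l, m ≤ l → l < P.d → P.act l (e.1 / P.s (l + 1))) ∧
    e.1 % P.s m + ∑ l ∈ Finset.Ico m P.d, (P.k l + 8 * P.g l) ≤ e.2)

private theorem nM_mono {M M' : ℕ → Prop} {a b a' b' : ℕ} (ha : a ≤ a') (hb : b' ≤ b)
    (h : ∀ y, a' ≤ y → y < b' → M' y → M y) : nM M' a' b' ≤ nM M a b := by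
  classical
  unfold nM
  apply Finset.card_le_card
  intro y hy
  rw [Finset.mem_filter, Finset.mem_Ico] at hy ⊢
  exact ⟨⟨ha.trans hy.1.1, lt_of_lt_of_le hy.1.2 hb⟩, h y hy.1.1 hy.1.2 hy.2⟩

/-- Self requests of the first child of the top level. -/
private theorem H1top (hRes : S_Res) (L t : ℕ) (M : ℕ → Prop) (hL : 12 ≤ tt L)
    (hM : ∀ y, y < ss L → ss L ≤ 2 * y → y % 8 = 2 → M y) (ht : t ≤ ss L) :
    ss L - t < 16 * (nM M t (ss L) + 1) := by
  rcases Nat.lt_or_ge (2 * t) (ss L) with h | h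
  · obtain ⟨w, hw⟩ : ∃ w, ss L = 16 * w := by
      refine ⟨2 ^ (tt L - 4), ?_⟩
      unfold ss
      have : (16 : ℕ) = 2 ^ 4 := by norm_num
      rw [this, ← pow_add]
      congr 1
      omega
    have h1 := hRes.2 8 2 (8 * w) w (by norm_num)
    have h2 : nM (fun y => y % 8 = 2) (8 * w) (8 * w + 8 * w) ≤ nM M t (ss L) := by
      apply nM_mono
      · omega
      · omega
      · intro y hy1 hy2 hy3
        exact hM y (by omega) (by omega) hy3
    rw [h1] at h2
    omega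
  · have h1 := hRes.1 8 2 t (ss L) (by norm_num)
    have h2 : nM (fun y => y % 8 = 2) t (ss L) ≤ nM M t (ss L) := by
      apply nM_mono le_rfl le_rfl
      intro y hy1 hy2 hy3
      exact hM y hy2 (by omega) hy3
    omega

/-- The trivial board. -/
private noncomputable def P0 (hTT : S_TT) (L : ℕ) : Par where
  d := 1
  s := fun j => ss (L + j)
  a := fun j => 2 ^ (tt (L + j) / 2) - 1
  k := fun _ => 1
  g := fun _ => 1
  act := fun _ _ => False
  MS := fun _ _ => False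
  MU := fun _ _ => False
  hs0 := fun _ => Nat.two_pow_pos _
  hs := fun l _ => hTT.2.2.1 (L + l)
  hk := fun _ => ⟨one_pos, le_rfl⟩
  hSS := fun _ _ _ _ _ h _ => h.elim
  hUU := fun _ _ _ _ _ h _ => h.elim
  hSU := fun _ _ _ _ _ h _ => h.elim
  H1 := fun _ _ _ h => h.elim
  H2 := fun _ _ _ h => h.elim

/-- exponents of the sizes -/
private def sg (e lo : ℕ) : ℕ → ℕ
  | 0 => min (2 * e + 9) (tt lo)
  | j + 1 => tt (lo + j)

/-- the numbers of the children -/
private def ac (e lo : ℕ) : ℕ → ℕ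
  | 0 => tt lo - min (2 * e + 9) (tt lo)
  | j + 1 => 2 ^ (tt (lo + j) / 2) - 1

private theorem sg0 (e lo : ℕ) : sg e lo 0 = min (2 * e + 9) (tt lo) := rfl

private theorem sgs (e lo j : ℕ) : sg e lo (j + 1) = tt (lo + j) := rfl

private theorem ac0 (e lo : ℕ) : ac e lo 0 = tt lo - min (2 * e + 9) (tt lo) := rfl

private theorem acs (e lo j : ℕ) : ac e lo (j + 1) = 2 ^ (tt (lo + j) / 2) - 1 := rfl

/-- The hypotheses on the parameters. -/
private structure Hy (L e lo : ℕ) : Prop where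
  e3 : 3 ≤ e
  he : 2 * (L + 2) < 2 ^ e
  lo1 : 1 ≤ lo
  loL : lo ≤ L
  h1 : 2 * e + 8 ≤ tt lo
  h2 : tt (lo - 1) < 2 * e + 8

private theorem sg_ge {L e lo : ℕ} (hTT : S_TT) (h : Hy L e lo) (j : ℕ) :
    2 * e + 8 ≤ sg e lo j := by
  have h1 := h.h1
  rcases j with _ | j
  · rw [sg0]
    omega
  · rw [sgs]
    exact h1.trans (hTT.1.monotone (Nat.le_add_right _ _))

private theorem sg_succ {e lo : ℕ} (hTT : S_TT) (j : ℕ) :
    2 ^ sg e lo (j + 1) = 2 ^ sg e lo j * 2 ^ ac e lo j := by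
  rcases j with _ | j
  · rw [sgs, sg0, ac0, ← pow_add, Nat.add_zero]
    congr 1
    omega
  · exact hTT.2.2.1 (lo + j)

private theorem ac_lt {L e lo : ℕ} (hTT : S_TT) (h : Hy L e lo) (j : ℕ) :
    2 ^ (e + 3) * (ac e lo j + 1) < 2 ^ sg e lo j := by
  have h1 := h.h1
  have h2 := h.h2
  have h3 := h.lo1
  rcases j with _ | j
  · rw [sg0, ac0]
    rcases Nat.lt_or_ge (2 * e + 9) (tt lo) with h4 | h4
    · rw [min_eq_left h4.le]
      obtain ⟨l, rfl⟩ : ∃ l, lo = l + 1 := ⟨lo - 1, by omega⟩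
      have h5 : tt (l + 1) = tt l + (2 ^ (tt l / 2) - 1) := rfl
      have h6 : tt l < 2 * e + 8 := h2
      have h7 : 2 ^ (tt l / 2) ≤ 2 ^ (e + 3) := Nat.pow_le_pow_right (by norm_num) (by omega)
      have h8 : tt (l + 1) - (2 * e + 9) + 1 ≤ 2 ^ (e + 3) := by
        have := Nat.two_pow_pos (e + 3)
        omega
      calc 2 ^ (e + 3) * (tt (l + 1) - (2 * e + 9) + 1) ≤ 2 ^ (e + 3) * 2 ^ (e + 3) :=
            Nat.mul_le_mul_left _ h8
        _ = 2 ^ (2 * e + 6) := by
            rw [← pow_add]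
            congr 1
            ring
        _ < 2 ^ (2 * e + 9) := Nat.pow_lt_pow_right (by norm_num) (by omega)
    · rw [min_eq_right h4, Nat.sub_self, Nat.zero_add, mul_one]
      exact Nat.pow_lt_pow_right (by norm_num) (by omega)
  · rw [sgs, acs, Nat.sub_add_cancel Nat.one_le_two_pow, ← pow_add]
    have h4 : 2 * e + 8 ≤ tt (lo + j) := h1.trans (hTT.1.monotone (Nat.le_add_right _ _))
    exact Nat.pow_lt_pow_right (by norm_num) (by omega)

private theorem sg_top {L e lo : ℕ} (h : Hy L e lo) (l : ℕ) (hl : l + 1 = L - lo + 2) :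
    2 ^ sg e lo l = ss L := by
  have h1 := h.loL
  obtain ⟨j, rfl⟩ : ∃ j, l = j + 1 := ⟨l - 1, by omega⟩
  have h2 : lo + j = L := by omega
  rw [sgs, h2]
  rfl

private def MS (L e lo l y : ℕ) : Prop :=
  (l + 1 = L - lo + 2 ∧ y < ss L ∧ ss L ≤ 2 * y ∧ y % 8 = 2) ∨
    (ss L ≤ y ∧ y % 2 ^ (e + 2) = 8 * l)

private def MU (L e l y : ℕ) : Prop := ss L ≤ y ∧ y % 2 ^ (e + 2) = 8 * l + 4

private def act (L e lo l p : ℕ) : Prop :=
  (l + 1 = L - lo + 2 ∧ p = 0) ∨ (l + 1 < L - lo + 2 ∧ ss L ≤ p * 2 ^ sg e lo (l + 1))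

private theorem child_ge {L e lo l c : ℕ} (hTT : S_TT)
    (h : ss L ≤ c / 2 ^ ac e lo l * 2 ^ sg e lo (l + 1)) : ss L ≤ c * 2 ^ sg e lo l := by
  refine h.trans ?_
  rw [sg_succ hTT]
  calc c / 2 ^ ac e lo l * (2 ^ sg e lo l * 2 ^ ac e lo l)
      = c / 2 ^ ac e lo l * 2 ^ ac e lo l * 2 ^ sg e lo l := by ring
    _ ≤ c * 2 ^ sg e lo l := Nat.mul_le_mul_right _ (Nat.div_mul_le_self _ _)

private theorem res_lt {L e lo l : ℕ} (h : Hy L e lo) (hl : l < L - lo + 2) :
    8 * l + 4 < 2 ^ (e + 2) := by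
  have h1 := h.he
  have h2 := h.lo1
  have h3 := h.loL
  rw [pow_add]
  have h4 : (2 : ℕ) ^ 2 = 4 := by norm_num
  rw [h4]
  omega

/-- The parameters of the board `L`. -/
private noncomputable def Pm (hTT : S_TT) (hRes : S_Res) (L e lo : ℕ) (h : Hy L e lo) : Par where
  d := L - lo + 2
  s := fun l => 2 ^ sg e lo l
  a := ac e lo
  k := fun _ => 2 ^ (e + 2)
  g := fun _ => 2 ^ (e + 3)
  act := act L e lo
  MS := MS L e lo
  MU := MU L e
  hs0 := fun l => Nat.two_pow_pos _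
  hs := fun l _ => sg_succ hTT l
  hk := fun l => ⟨Nat.two_pow_pos _, Nat.pow_le_pow_right (by norm_num) (by omega)⟩
  hSS := by
    rintro l hl l' hl' y (⟨h1, h2, h3, h4⟩ | ⟨h1, h2⟩) (⟨h1', h2', h3', h4'⟩ | ⟨h1', h2'⟩)
    · omega
    · omega
    · omega
    · omega
  hUU := by
    rintro l hl l' hl' y ⟨h1, h2⟩ ⟨h1', h2'⟩
    omega
  hSU := by
    rintro l hl l' hl' y (⟨h1, h2, h3, h4⟩ | ⟨h1, h2⟩) ⟨h1', h2'⟩
    · omega
    · omega
  H1 := by
    intro l hl c hact t ht1 ht2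
    have hr := res_lt h hl
    by_cases hc : ss L ≤ c * 2 ^ sg e lo l
    · have h1 := hRes.1 (2 ^ (e + 2)) (8 * l) t ((c + 1) * 2 ^ sg e lo l) (by omega)
      have h2 : nM (fun y => y % 2 ^ (e + 2) = 8 * l) t ((c + 1) * 2 ^ sg e lo l) ≤
          nM (MS L e lo l) t ((c + 1) * 2 ^ sg e lo l) := by
        apply nM_mono le_rfl le_rfl
        intro y hy1 hy2 hy3
        exact Or.inr ⟨hc.trans (ht1.trans hy1), hy3⟩
      exact lt_of_lt_of_le h1 (Nat.mul_le_mul_left _ (Nat.succ_le_succ h2))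
    · rcases hact with h3 | h3
      · obtain ⟨h3, hp⟩ := h3
        have htop := sg_top h l h3
        rw [htop] at hc ht1 ht2 ⊢
        have hc0 : c = 0 := by
          by_contra hne
          apply hc
          calc ss L = 1 * ss L := (one_mul _).symm
            _ ≤ c * ss L := Nat.mul_le_mul_right _ (Nat.one_le_iff_ne_zero.2 hne)
        subst hc0
        have htt : 12 ≤ tt L := by
          have h4 := h.h1
          have h5 : tt lo ≤ tt L := hTT.1.monotone h.loL
          have h6 := h.e3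
          omega
        have h7 := H1top hRes L t (MS L e lo l) htt
          (fun y h1 h2 h3' => Or.inl ⟨h3, h1, h2, h3'⟩) (by simpa using ht2)
        have h8 : 16 ≤ 2 ^ (e + 2) := by
          calc 16 = 2 ^ 4 := by norm_num
            _ ≤ 2 ^ (e + 2) := Nat.pow_le_pow_right (by norm_num) (by have := h.e3; omega)
        rw [Nat.zero_add, one_mul]
        exact lt_of_lt_of_le h7 (Nat.mul_le_mul_right _ h8)
      · exact absurd (child_ge hTT h3.2) hc
  H2 := by
    intro l hl c hact hc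
    have hr := res_lt h hl
    have hsg := sg_ge hTT h l
    have hge : ss L ≤ c * 2 ^ sg e lo l := by
      rcases hact with h3 | h3
      · obtain ⟨h3, hp⟩ := h3
        rw [sg_top h l h3]
        have hne : c ≠ 0 := by
          rintro rfl
          exact hc (Nat.zero_mod _)
        calc ss L = 1 * ss L := (one_mul _).symm
          _ ≤ c * ss L := Nat.mul_le_mul_right _ (Nat.one_le_iff_ne_zero.2 hne)
      · exact child_ge hTT h3.2
    have hw : 2 ^ sg e lo l = 2 ^ (e + 2) * 2 ^ (sg e lo l - (e + 2)) := by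
      rw [← pow_add]
      congr 1
      omega
    have h1 := hRes.2 (2 ^ (e + 2)) (8 * l + 4) (c * 2 ^ sg e lo l)
      (2 ^ (sg e lo l - (e + 2))) hr
    rw [← hw] at h1
    have h2 : nM (fun y => y % 2 ^ (e + 2) = 8 * l + 4) (c * 2 ^ sg e lo l)
        (c * 2 ^ sg e lo l + 2 ^ sg e lo l) ≤
        nM (MU L e l) (c * 2 ^ sg e lo l) ((c + 1) * 2 ^ sg e lo l) := by
      apply nM_mono le_rfl
      · rw [Nat.add_mul, one_mul]
      · intro y hy1 hy2 hy3
        exact ⟨hge.trans hy1, hy3⟩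
    rw [h1] at h2
    have h3 : 2 ^ (e + 3) * 2 ^ (sg e lo l - (e + 2)) = 2 * 2 ^ sg e lo l := by
      rw [← pow_add, ← pow_succ']
      congr 1
      omega
    have h5 := ac_lt hTT h l
    have h6 : 2 ^ (e + 3) * 2 ^ (sg e lo l - (e + 2)) ≤
        2 ^ (e + 3) * nM (MU L e l) (c * 2 ^ sg e lo l) ((c + 1) * 2 ^ sg e lo l) :=
      Nat.mul_le_mul_left _ h2
    rw [h3] at h6
    omega

theorem tP8 (h1 : S_TT) (h2 : S_Res) : S_P8 := by
  intro L
  have hlog : 2 * (L + 2) < 2 ^ ee L := Nat.lt_pow_succ_log_self (by norm_num) _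
  have he3 : 3 ≤ ee L := by
    unfold ee
    have : 2 ≤ Nat.log 2 (2 * (L + 2)) := by
      rw [Nat.le_log_iff_pow_le (by norm_num) (by omega)]
      omega
    omega
  by_cases hact : 2 * ee L + 8 ≤ tt L
  swap
  · refine ⟨P0 h1 L, rfl, ?_, ?_⟩
    · rintro l hl y hy (h | h)
      · exact h.elim
      · exact h.elim
    · intro e he
      unfold C1 at he
      rw [if_neg hact] at he
      simp at he
  · obtain ⟨lo, hlo1, hlo2, hloL⟩ : ∃ lo, 2 * ee L + 8 ≤ tt lo ∧
        (∀ m < lo, ¬ 2 * ee L + 8 ≤ tt m) ∧ lo ≤ L := by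
      classical
      have hex : ∃ lo, 2 * ee L + 8 ≤ tt lo := ⟨L, hact⟩
      exact ⟨Nat.find hex, Nat.find_spec hex, fun m hm => Nat.find_min hex hm,
        Nat.find_min' hex hact⟩
    have hlo : 1 ≤ lo := by
      rcases Nat.eq_zero_or_pos lo with h | h
      · rw [h] at hlo1
        have : tt 0 = 2 := rfl
        omega
      · exact h
    have hy : Hy L (ee L) lo := ⟨he3, hlog, hlo, hloL, hlo1, by
      have := hlo2 (lo - 1) (by omega)
      omega⟩
    have htop : 2 ^ sg (ee L) lo (L - lo + 2) = ss (L + 1) := by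
      show 2 ^ tt (lo + (L - lo + 1)) = 2 ^ tt (L + 1)
      congr 2
      omega
    refine ⟨Pm h1 h2 L (ee L) lo hy, htop, ?_, ?_⟩
    · intro l hl y hy' hM
      have hy'' : y < ss (L + 1) := by
        rw [← htop]
        exact hy'
      have h4 : 4 ∣ 2 ^ (ee L + 2) := ⟨2 ^ ee L, by rw [pow_add]; ring⟩
      unfold mList8
      rw [List.mem_filter, List.mem_range, decide_eq_true_iff]
      refine ⟨hy'', ?_⟩
      rcases hM with (⟨_, h3, h4, h5⟩ | ⟨h3, h5⟩) | ⟨h3, h5⟩
      · exact Or.inl ⟨h3, h4, h5⟩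
      · refine Or.inr ⟨h3, ?_⟩
        rw [← Nat.mod_mod_of_dvd y h4, h5]
        omega
      · refine Or.inr ⟨h3, ?_⟩
        rw [← Nat.mod_mod_of_dvd y h4, h5]
        omega
    · intro e he
      unfold C1 at he
      rw [if_pos hact, List.mem_map] at he
      obtain ⟨n, hn, rfl⟩ := he
      rw [List.mem_filter, List.mem_range, decide_eq_true_iff] at hn
      obtain ⟨hn1, hn2⟩ := hn
      refine ⟨?_, 0, Nat.zero_le _, ?_, ?_⟩
      · show n < 2 ^ sg (ee L) lo (L - lo + 2)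
        rw [htop]
        exact hn1
      · intro l _ hl
        have hl' : l < L - lo + 2 := hl
        show act L (ee L) lo l (n / 2 ^ sg (ee L) lo (l + 1))
        rcases Nat.lt_or_ge (l + 1) (L - lo + 2) with h3 | h3
        · right
          refine ⟨h3, ?_⟩
          obtain ⟨q, hq⟩ := h1.2.2.2.1 (lo + l) L (by omega)
          have h4 : 2 ^ sg (ee L) lo (l + 1) = ss (lo + l) := rfl
          rw [h4]
          have h5 : q ≤ n / ss (lo + l) := by
            refine (Nat.le_div_iff_mul_le (show 0 < ss (lo + l) from Nat.two_pow_pos _)).2 ?_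
            rw [Nat.mul_comm, ← hq]
            exact hn2
          calc ss L = q * ss (lo + l) := by rw [hq, Nat.mul_comm]
            _ ≤ n / ss (lo + l) * ss (lo + l) := Nat.mul_le_mul_right _ h5
        · left
          have h4 : l + 1 = L - lo + 2 := by omega
          refine ⟨h4, ?_⟩
          rw [h4, htop]
          exact Nat.div_eq_of_lt hn1
      · show n % 2 ^ sg (ee L) lo 0 + ∑ l ∈ Finset.Ico 0 (L - lo + 2),
          (2 ^ (ee L + 2) + 8 * 2 ^ (ee L + 3)) ≤ rr L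
        rw [Finset.sum_const, Nat.card_Ico, smul_eq_mul, Nat.sub_zero]
        have h3 : n % 2 ^ sg (ee L) lo 0 < 2 ^ sg (ee L) lo 0 :=
          Nat.mod_lt _ (Nat.two_pow_pos _)
        have h4 : 2 ^ sg (ee L) lo 0 ≤ 2 ^ (2 * ee L + 9) :=
          Nat.pow_le_pow_right (by norm_num) (min_le_left _ _)
        have h5 : (L - lo + 2) * (2 ^ (ee L + 2) + 8 * 2 ^ (ee L + 3)) ≤
            (L + 2) * (2 ^ (ee L + 2) + 8 * 2 ^ (ee L + 3)) :=
          Nat.mul_le_mul_right _ (by omega)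
        unfold rr
        omega

end Pool.Agent.D9b
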